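import Mathlib

set_option autoImplicit false

/-! Over a field of characteristic zero the traces of the powers determine the characteristic
polynomial. -/

namespace Pool.Agent.TH658.Eq

open Finset Polynomial

variable {ι : Type} [Fintype ι] [DecidableEq ι]

/-- Jacobi's formula -/
theorem jacobi {R : Type} [CommRing R] (M : Matrix ι ι R[X]) :
    derivative M.det = (M.adjugate * M.map derivative).trace := by
  have h1 : (M.adjugate * M.map derivative).trace =
      ∑ i, (M.updateCol i fun j => derivative (M j i)).det := by
    unfold Matrix.trace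
    refine Finset.sum_congr rfl fun i _ => ?_
    rw [← Matrix.cramer_apply, Matrix.cramer_eq_adjugate_mulVec]
    rfl
  rw [h1, Matrix.det_apply]
  have h2 : ∀ i, (M.updateCol i fun j => derivative (M j i)).det =
      ∑ σ : Equiv.Perm ι, Equiv.Perm.sign σ •
        ((∏ j ∈ univ.erase i, M (σ j) j) * derivative (M (σ i) i)) := by
    intro i
    rw [Matrix.det_apply]
    refine Finset.sum_congr rfl fun σ _ => ?_
    congr 1
    rw [← Finset.mul_prod_erase univ _ (mem_univ i), mul_comm]
    congr 1
    · refine Finset.prod_congr rfl fun j hj => ?_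
      rw [Matrix.updateCol_ne (Finset.ne_of_mem_erase hj)]
    · rw [Matrix.updateCol_self]
  rw [Finset.sum_congr rfl (fun i _ => h2 i), Finset.sum_comm, derivative_sum]
  refine Finset.sum_congr rfl fun σ _ => ?_
  rw [← Finset.smul_sum, ← derivative_prod_finset]
  exact map_zsmul derivative (Equiv.Perm.sign σ : ℤ) _

variable {K : Type} [Field K]

/-- the resolvent as a matrix of power series -/
noncomputable def resolv (A : Matrix ι ι K) : Matrix ι ι (PowerSeries K) :=
  Matrix.of fun i j => PowerSeries.mk fun k => (A ^ k) i j

theorem resolv_mul (A : Matrix ι ι K) :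
    ((1 - (X : K[X]) • A.map C).map (coeToPowerSeries.ringHom (R := K))) * resolv A = 1 := by
  have h1 : (1 - (X : K[X]) • A.map C).map (coeToPowerSeries.ringHom (R := K)) =
      1 - (PowerSeries.X : PowerSeries K) • A.map (PowerSeries.C) := by
    refine Matrix.ext fun i j => ?_
    rw [Matrix.map_apply, Matrix.sub_apply, Matrix.sub_apply, Matrix.smul_apply,
      Matrix.smul_apply, Matrix.map_apply, Matrix.map_apply, map_sub, smul_eq_mul, smul_eq_mul,
      map_mul, Matrix.one_apply, Matrix.one_apply]
    congr 1
    · split_ifs
      · rw [map_one]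
      · rw [map_zero]
    · rw [coeToPowerSeries.ringHom_apply, coeToPowerSeries.ringHom_apply, coe_X, coe_C]
  rw [h1, sub_mul, one_mul, smul_mul_assoc]
  refine Matrix.ext fun i j => ?_
  refine PowerSeries.ext fun k => ?_
  rw [Matrix.sub_apply, Matrix.smul_apply, Matrix.mul_apply, map_sub, smul_eq_mul]
  unfold resolv
  rw [Matrix.of_apply, PowerSeries.coeff_mk]
  rcases k with _ | k
  · rw [PowerSeries.coeff_zero_X_mul, sub_zero, pow_zero, Matrix.one_apply, Matrix.one_apply]
    split_ifs
    · rw [PowerSeries.coeff_zero_one]
    · rw [map_zero]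
  · rw [PowerSeries.coeff_succ_X_mul, map_sum, pow_succ', Matrix.mul_apply]
    have h2 : ∀ x, PowerSeries.coeff k (A.map (PowerSeries.C) i x *
        Matrix.of (fun i j => PowerSeries.mk fun k => (A ^ k) i j) x j) =
        A i x * (A ^ k) x j := by
      intro x
      rw [Matrix.map_apply, PowerSeries.coeff_C_mul, Matrix.of_apply, PowerSeries.coeff_mk]
    rw [Finset.sum_congr rfl (fun x _ => h2 x), sub_self, Matrix.one_apply]
    split_ifs
    · rw [PowerSeries.coeff_one, if_neg (Nat.succ_ne_zero k)]
    · rw [map_zero]

/-- Newton's identities for the reversed characteristic polynomial -/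
theorem newton (A : Matrix ι ι K) (k : ℕ) :
    (A.charpolyRev.coeff (k + 1)) * ((k : K) + 1) =
      - ∑ p ∈ Finset.HasAntidiagonal.antidiagonal k, A.charpolyRev.coeff p.1 * (A ^ (p.2 + 1)).trace := by
  set N : Matrix ι ι K[X] := 1 - (X : K[X]) • A.map C with hN
  have hdet : A.charpolyRev = N.det := rfl
  have h1 := jacobi N
  have h2 : N.map derivative = - A.map C := by
    refine Matrix.ext fun i j => ?_
    rw [Matrix.map_apply, hN, Matrix.sub_apply, Matrix.smul_apply, Matrix.neg_apply,
      Matrix.map_apply, derivative_sub, smul_eq_mul, derivative_mul, derivative_X, one_mul,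
      derivative_C, mul_zero, add_zero, Matrix.one_apply]
    split_ifs
    · rw [derivative_one, zero_sub]
    · rw [derivative_zero, zero_sub]
  rw [h2] at h1
  have h3 := congrArg (coeToPowerSeries.ringHom (R := K)) h1
  have h4 : (coeToPowerSeries.ringHom (R := K)) ((N.adjugate * -A.map C).trace) =
      ((N.adjugate.map (coeToPowerSeries.ringHom (R := K))) *
        -(A.map (PowerSeries.C))).trace := by
    have h5 : ∀ M : Matrix ι ι K[X], (coeToPowerSeries.ringHom (R := K)) M.trace =
        (M.map (coeToPowerSeries.ringHom (R := K))).trace := by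
      intro M
      unfold Matrix.trace
      rw [map_sum]
      rfl
    rw [h5, Matrix.map_mul]
    congr 2
    refine Matrix.ext fun i j => ?_
    rw [Matrix.map_apply, Matrix.neg_apply, Matrix.neg_apply, map_neg, Matrix.map_apply,
      Matrix.map_apply, coeToPowerSeries.ringHom_apply, coe_C]
  rw [h4] at h3
  have h5 : N.adjugate.map (coeToPowerSeries.ringHom (R := K)) =
      (coeToPowerSeries.ringHom (R := K) N.det) • resolv A := by
    have h6 : N.adjugate.map (coeToPowerSeries.ringHom (R := K)) *
        N.map (coeToPowerSeries.ringHom (R := K)) =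
        (coeToPowerSeries.ringHom (R := K) N.det) • (1 : Matrix ι ι (PowerSeries K)) := by
      rw [← Matrix.map_mul, Matrix.adjugate_mul]
      refine Matrix.ext fun i j => ?_
      rw [Matrix.map_apply, Matrix.smul_apply, Matrix.smul_apply, smul_eq_mul, smul_eq_mul,
        map_mul, Matrix.one_apply, Matrix.one_apply]
      congr 1
      split_ifs
      · rw [map_one]
      · rw [map_zero]
    calc N.adjugate.map (coeToPowerSeries.ringHom (R := K))
        = N.adjugate.map (coeToPowerSeries.ringHom (R := K)) *
          (N.map (coeToPowerSeries.ringHom (R := K)) * resolv A) := by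
          rw [hN, resolv_mul, mul_one]
      _ = _ := by rw [← mul_assoc, h6, smul_mul_assoc, one_mul]
  rw [h5, smul_mul_assoc, Matrix.trace_smul, Matrix.mul_neg, Matrix.trace_neg, smul_eq_mul] at h3
  have h6 : (resolv A * A.map (PowerSeries.C)).trace =
      PowerSeries.mk fun k => (A ^ (k + 1)).trace := by
    refine PowerSeries.ext fun k => ?_
    rw [PowerSeries.coeff_mk]
    unfold Matrix.trace
    rw [map_sum]
    refine Finset.sum_congr rfl fun i _ => ?_
    rw [Matrix.diag_apply, Matrix.diag_apply, Matrix.mul_apply, map_sum, pow_succ,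
      Matrix.mul_apply]
    refine Finset.sum_congr rfl fun j _ => ?_
    rw [Matrix.map_apply, mul_comm, PowerSeries.coeff_C_mul]
    unfold resolv
    rw [Matrix.of_apply, PowerSeries.coeff_mk, mul_comm]
  rw [h6, ← hdet] at h3
  have h7 := congrArg (PowerSeries.coeff k) h3
  rw [coeToPowerSeries.ringHom_apply, coeff_coe, coeff_derivative, mul_neg, map_neg,
    PowerSeries.coeff_mul] at h7
  rw [h7]
  congr 1
  refine Finset.sum_congr rfl fun p _ => ?_
  rw [PowerSeries.coeff_mk, coeToPowerSeries.ringHom_apply, coeff_coe]

/-- The traces of the powers determine the characteristic polynomial. -/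
theorem charpoly_eq_of_traces [CharZero K] (A B : Matrix ι ι K)
    (h : ∀ k : ℕ, (A ^ k).trace = (B ^ k).trace) : A.charpoly = B.charpoly := by
  have h1 : ∀ k, A.charpolyRev.coeff k = B.charpolyRev.coeff k := by
    intro k
    induction k using Nat.strong_induction_on with
    | _ k ih =>
      rcases k with _ | k
      · rw [coeff_zero_eq_eval_zero, coeff_zero_eq_eval_zero, Matrix.eval_charpolyRev,
          Matrix.eval_charpolyRev]
      · have hk : ((k : K) + 1) ≠ 0 := by exact_mod_cast Nat.succ_ne_zero k
        refine mul_right_cancel₀ hk ?_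
        rw [newton, newton]
        congr 1
        refine Finset.sum_congr rfl fun p hp => ?_
        have h3 := (Finset.HasAntidiagonal.mem_antidiagonal.mp hp)
        rw [ih p.1 (by omega), h]
  have h2 : A.charpolyRev = B.charpolyRev := Polynomial.ext h1
  rw [← Matrix.reverse_charpoly, ← Matrix.reverse_charpoly] at h2
  have hd : A.charpoly.natDegree = B.charpoly.natDegree := by
    rw [Matrix.charpoly_natDegree_eq_dim, Matrix.charpoly_natDegree_eq_dim]
  unfold reverse at h2
  rw [hd] at h2
  have h4 := congrArg (reflect B.charpoly.natDegree) h2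
  rw [reflect_reflect, reflect_reflect] at h4
  exact h4

theorem det_eq_of_traces [CharZero K] (A B : Matrix ι ι K)
    (h : ∀ k : ℕ, (A ^ k).trace = (B ^ k).trace) : A.det = B.det := by
  rw [Matrix.det_eq_sign_charpoly_coeff, Matrix.det_eq_sign_charpoly_coeff,
    charpoly_eq_of_traces A B h]

end Pool.Agent.TH658.Eq
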