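import Pool.Agent.TH658.Eq.Core

set_option autoImplicit false
set_option linter.unusedSectionVars false

/-! The algebra generated by an equivariant family of matrices carries an action of the group. -/

namespace Pool.Agent.TH658.Eq

open Finset Pool.Agent.H30R2.PS

variable {K : Type} [Field K] {ι : Type} [Fintype ι] [DecidableEq ι] {X : Type}

/-- conjugation by an invertible matrix -/
def conj (q : (Matrix ι ι K)ˣ) : Matrix ι ι K →ₐ[K] Matrix ι ι K where
  toFun a := q.1 * a * q⁻¹.1
  map_one' := by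
    rw [mul_one]
    exact q.mul_inv
  map_mul' a b := by
    have h : q⁻¹.1 * q.1 = 1 := q.inv_mul
    calc q.1 * (a * b) * q⁻¹.1 = q.1 * a * 1 * b * q⁻¹.1 := by
          rw [mul_one]
          simp only [mul_assoc]
      _ = q.1 * a * (q⁻¹.1 * q.1) * b * q⁻¹.1 := by rw [h]
      _ = (q.1 * a * q⁻¹.1) * (q.1 * b * q⁻¹.1) := by simp only [mul_assoc]
  map_zero' := by rw [mul_zero, zero_mul]
  map_add' a b := by rw [mul_add, add_mul]
  commutes' c := by
    have h : q.1 * q⁻¹.1 = 1 := q.mul_inv
    rw [← Algebra.commutes c q.1, mul_assoc, h, mul_one]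

theorem conj_apply (q : (Matrix ι ι K)ˣ) (a : Matrix ι ι K) :
    conj q a = q.1 * a * q⁻¹.1 := rfl

theorem trace_conj (q : (Matrix ι ι K)ˣ) (a : Matrix ι ι K) :
    (conj q a).trace = a.trace := by
  rw [conj_apply, Matrix.trace_mul_comm, ← mul_assoc]
  have h : q⁻¹.1 * q.1 = 1 := q.inv_mul
  rw [h, one_mul]

/-- the algebra generated by the matrices of the family -/
abbrev alg (A : X → Matrix ι ι K) : Subalgebra K (Matrix ι ι K) :=
  Algebra.adjoin K (Set.range A)

/-- a matrix of the family as an element of the algebra -/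
def gen (A : X → Matrix ι ι K) (x : X) : alg A :=
  ⟨A x, Algebra.subset_adjoin (Set.mem_range_self x)⟩

variable {H : Type} [AddCommGroup H] [Module (ZMod 2) H]

/-- The action of the group on the algebra: each symmetry is given by some conjugation. -/
theorem exists_action (A : X → Matrix ι ι K) (act : H → X → X) (hact0 : ∀ x, act 0 x = x)
    (hact : ∀ h h' x, act (h + h') x = act h (act h' x))
    (hsym : ∀ h, ∃ q : (Matrix ι ι K)ˣ, ∀ x, A (act h x) = q.1 * A x * q⁻¹.1) :
    ∃ R : H → alg A →ₗ[K] alg A, (∀ v, R 0 v = v) ∧ (∀ h h' v, R (h + h') v = R h (R h' v)) ∧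
      (∀ h x v, R h (gen A x * v) = gen A (act h x) * R h v) ∧ (∀ h, R h 1 = 1) ∧
      (∀ h v, (R h v : Matrix ι ι K).trace = (v : Matrix ι ι K).trace) := by
  choose q hq using hsym
  have hmem : ∀ h (a : Matrix ι ι K), a ∈ alg A → conj (q h) a ∈ alg A := by
    intro h a ha
    induction ha using Algebra.adjoin_induction with
    | mem a ha =>
      obtain ⟨x, rfl⟩ := ha
      rw [conj_apply, ← hq]
      exact Algebra.subset_adjoin (Set.mem_range_self _)
    | algebraMap c =>
      rw [AlgHom.commutes]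
      exact Subalgebra.algebraMap_mem _ c
    | add a b _ _ h1 h2 =>
      rw [map_add]
      exact Subalgebra.add_mem _ h1 h2
    | mul a b _ _ h1 h2 =>
      rw [map_mul]
      exact Subalgebra.mul_mem _ h1 h2
  let R : H → alg A →ₗ[K] alg A := fun h =>
    { toFun := fun v => ⟨conj (q h) v.1, hmem h v.1 v.2⟩
      map_add' := fun u v => Subtype.ext (map_add _ _ _)
      map_smul' := fun c v => Subtype.ext (map_smul (conj (q h)) c v.1) }
  have h0 : ∀ a ∈ alg A, conj (q 0) a = a := by
    intro a ha
    induction ha using Algebra.adjoin_induction with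
    | mem a ha =>
      obtain ⟨x, rfl⟩ := ha
      rw [conj_apply, ← hq, hact0]
    | algebraMap c => exact AlgHom.commutes _ c
    | add a b _ _ h1 h2 => rw [map_add, h1, h2]
    | mul a b _ _ h1 h2 => rw [map_mul, h1, h2]
  have hadd : ∀ h h', ∀ a ∈ alg A, conj (q (h + h')) a = conj (q h) (conj (q h') a) := by
    intro h h' a ha
    induction ha using Algebra.adjoin_induction with
    | mem a ha =>
      obtain ⟨x, rfl⟩ := ha
      rw [conj_apply, ← hq, conj_apply (q h'), ← hq, conj_apply, ← hq, hact]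
    | algebraMap c => rw [AlgHom.commutes, AlgHom.commutes, AlgHom.commutes]
    | add a b _ _ h1 h2 => rw [map_add, map_add, map_add, h1, h2]
    | mul a b _ _ h1 h2 => rw [map_mul, map_mul, map_mul, h1, h2]
  refine ⟨R, ?_, ?_, ?_, ?_, ?_⟩
  · exact fun v => Subtype.ext (h0 v.1 v.2)
  · exact fun h h' v => Subtype.ext (hadd h h' v.1 v.2)
  · intro h x v
    refine Subtype.ext ?_
    show conj (q h) (A x * v.1) = A (act h x) * conj (q h) v.1
    rw [map_mul, conj_apply (q h) (A x), ← hq]
  · exact fun h => Subtype.ext (map_one _)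
  · exact fun h v => trace_conj _ _

/-- linear functionals of matrices with entries in a space of functions -/
theorem functional_mem {T : Type} (W : Submodule K (T → K)) (M : T → Matrix ι ι K)
    (hM : ∀ i j, (fun t => M t i j) ∈ W) (g : Matrix ι ι K →ₗ[K] K) :
    (fun t => g (M t)) ∈ W := by
  have h1 : (fun t => g (M t)) = ∑ i, ∑ j, g (Matrix.single i j 1) • fun t => M t i j := by
    funext t
    conv_lhs => rw [Matrix.matrix_eq_sum_single (M t)]
    rw [map_sum, Finset.sum_apply]
    refine Finset.sum_congr rfl fun i _ => ?_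
    rw [map_sum, Finset.sum_apply]
    refine Finset.sum_congr rfl fun j _ => ?_
    show g (Matrix.single i j (M t i j)) = g (Matrix.single i j 1) * M t i j
    have h2 : Matrix.single i j (M t i j) = M t i j • (Matrix.single i j (1 : K)) := by
      rw [Matrix.smul_single, smul_eq_mul, mul_one]
    rw [h2, map_smul, smul_eq_mul, mul_comm]
  rw [h1]
  exact Submodule.sum_mem _ fun i _ => Submodule.sum_mem _ fun j _ =>
    Submodule.smul_mem _ _ (hM i j)

/-- functionals on the algebra are restrictions of functionals on the matrices -/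
theorem functional_alg {T : Type} (W : Submodule K (T → K)) (A : X → Matrix ι ι K) (x : T → X)
    (hM : ∀ i j, (fun t => A (x t) i j) ∈ W) (μ : Module.Dual K (alg A)) (v : alg A) :
    (fun t => μ (gen A (x t) * v)) ∈ W := by
  obtain ⟨g, hg⟩ := LinearMap.exists_extend (p := Subalgebra.toSubmodule (alg A)) μ
  have h1 : (fun t => μ (gen A (x t) * v)) =
      fun t => (g.comp (LinearMap.mulRight K v.1)) (A (x t)) := by
    funext t
    have h2 := LinearMap.congr_fun hg (gen A (x t) * v)
    rw [← h2]
    rfl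
  rw [h1]
  exact functional_mem W (fun t => A (x t)) hM _

variable [Fintype H] {S : Type} [Fintype S] [DecidableEq S]

/-- Equality of the traces of the powers. -/
theorem traces_eq (h2 : (2 : K) ≠ 0) (A : X → Matrix ι ι K) (act : H → X → X)
    (R : H → alg A →ₗ[K] alg A) (hR0 : ∀ v, R 0 v = v)
    (hR : ∀ h h' v, R (h + h') v = R h (R h' v))
    (hRg : ∀ h x v, R h (gen A x * v) = gen A (act h x) * R h v) (hR1 : ∀ h, R h 1 = 1)
    (hRt : ∀ h v, (R h v : Matrix ι ι K).trace = (v : Matrix ι ι K).trace)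
    (B : H →ₗ[ZMod 2] (S → ZMod 2)) (x : (S → ZMod 2) → X)
    (hx : ∀ t h, x (t + B h) = act h (x t)) (τ : ℕ)
    (hlow : ∀ i j, (fun t => A (x t) i j) ∈ Sp K {l : S → ZMod 2 | wt l ≤ τ})
    (good : ∀ z z' : Chr H, pr R z ≠ 0 → pr R z' ≠ 0 → ∀ l : S → ZMod 2, τ < wt l →
      wt l ≤ 2 * τ → ∃ h, dot l (B h) ≠ z h + z' h)
    (e : S → ZMod 2)
    (he : ∀ l : S → ZMod 2, wt l ≤ τ → (∀ h, dot l (B h) = 0) → dot l e = 0)
    (t : S → ZMod 2) (k : ℕ) :
    ((A (x (t + e))) ^ k).trace = ((A (x t)) ^ k).trace := by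
  let a : (S → ZMod 2) → alg A →ₗ[K] alg A := fun t => LinearMap.mulLeft K (gen A (x t))
  have haa : ∀ t v, a t v = gen A (x t) * v := fun t v => rfl
  have hself : ∀ h v, R h (R h v) = v := by
    intro h v
    rw [← hR]
    have h1 : h + h = 0 := by
      have h3 : h + h = (2 : ZMod 2) • h := (two_smul (ZMod 2) h).symm
      have h4 : (2 : ZMod 2) = 0 := rfl
      rw [h3, h4, zero_smul]
    rw [h1, hR0]
  obtain ⟨D, _, hD2, hD3, hD4⟩ := twist h2 hR0 hR B a (fun t h v => by
    rw [haa, haa, hRg, hself, hx]) τ (fun μ v => functional_alg _ A x hlow μ v) good e he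
  have hpow : ∀ k : ℕ, D (gen A (x t) ^ k) = gen A (x (t + e)) ^ k := by
    intro k
    induction k with
    | zero =>
      rw [pow_zero, pow_zero]
      exact hD3 1 fun h => hR1 h
    | succ k ih =>
      rw [pow_succ', pow_succ', ← ih]
      exact hD2 t _
  let φ : Module.Dual K (alg A) :=
    (Matrix.traceLinearMap ι K K).comp (Subalgebra.toSubmodule (alg A)).subtype
  have hφ : ∀ v : alg A, φ v = (v : Matrix ι ι K).trace := fun v => rfl
  have h5 := hD4 φ (fun h v => by rw [hφ, hφ, hRt]) (gen A (x t) ^ k)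
  rw [hpow, hφ, hφ] at h5
  exact h5

/-- dimension of the algebra -/
theorem finrank_alg (A : X → Matrix ι ι K) :
    Module.finrank K (alg A) ≤ Fintype.card ι ^ 2 := by
  have h1 : Module.finrank K (alg A) ≤ Module.finrank K (Matrix ι ι K) :=
    Submodule.finrank_le (Subalgebra.toSubmodule (alg A))
  refine h1.trans (le_of_eq ?_)
  rw [Module.finrank_matrix, Module.finrank_self, mul_one, sq]

end Pool.Agent.TH658.Eq
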