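import Pool.Agent.TH658.Eq.Fou

set_option autoImplicit false
set_option linter.unusedSectionVars false

/-! The twist: an operator family equivariant under a small translation group and with entries of
low degree is conjugate to its translates. -/

namespace Pool.Agent.TH658.Eq

open Finset Pool.Agent.H30R2.PS

section chars

variable {H : Type} [AddCommGroup H] [Module (ZMod 2) H] [Fintype H]

/-- the characters -/
abbrev Chr (H : Type) [AddCommGroup H] [Module (ZMod 2) H] := H →ₗ[ZMod 2] ZMod 2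

instance : Finite (Chr H) :=
  Finite.of_injective (fun f : Chr H => (f : H → ZMod 2)) DFunLike.coe_injective

noncomputable instance : Fintype (Chr H) := Fintype.ofFinite _

theorem card_Chr : Fintype.card (Chr H) = Fintype.card H := by
  have h1 := Module.card_eq_pow_finrank (K := ZMod 2) (V := H)
  have h2 := Module.card_eq_pow_finrank (K := ZMod 2) (V := Chr H)
  have h3 : Module.finrank (ZMod 2) (Chr H) = Module.finrank (ZMod 2) H :=
    Subspace.dual_finrank_eq
  rw [h1, h2, h3]

variable {S : Type} [Fintype S]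

/-- The potential: on a set of characters without critical sums there is a function whose sums
give the value at `e` of the light adapted vectors. -/
theorem exists_E [DecidableEq S] (C : Set (Chr H)) (B : H →ₗ[ZMod 2] (S → ZMod 2)) (τ : ℕ)
    (good : ∀ z ∈ C, ∀ z' ∈ C, ∀ l : S → ZMod 2, τ < wt l → wt l ≤ 2 * τ →
      ∃ h, dot l (B h) ≠ z h + z' h)
    (e : S → ZMod 2)
    (he : ∀ l : S → ZMod 2, wt l ≤ τ → (∀ h, dot l (B h) = 0) → dot l e = 0) :
    ∃ E : Chr H → ZMod 2, E 0 = 0 ∧ ∀ z ∈ C, ∀ z' ∈ C, ∀ l : S → ZMod 2, wt l ≤ τ →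
      (∀ h, dot l (B h) = z h + z' h) → dot l e = E z + E z' := by
  classical
  have light : ∀ z ∈ C, ∀ z' ∈ C, ∀ l l' : S → ZMod 2, wt l ≤ τ → wt l' ≤ τ →
      (∀ h, dot (l + l') (B h) = z h + z' h) → wt (l + l') ≤ τ := by
    intro z hz z' hz' l l' hl hl' hadj
    by_contra hn
    rw [not_le] at hn
    have h1 : wt (l + l') ≤ 2 * τ := (wt_add_le l l').trans (by omega)
    obtain ⟨h, hh⟩ := good z hz z' hz' _ hn h1
    exact hh (hadj h)
  have cancel : ∀ x y z : ZMod 2, (x + y) + (y + z) = x + z := by decide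
  let r : Setoid C :=
    { r := fun z z' => ∃ l : S → ZMod 2, wt l ≤ τ ∧ ∀ h, dot l (B h) = z.1 h + z'.1 h
      iseqv :=
        { refl := fun z => ⟨0, by rw [wt_zero]; exact Nat.zero_le _, fun h => by
            rw [zero_dot]
            exact (zmod2_add_self _).symm⟩
          symm := by
            rintro z z' ⟨l, h1, h3⟩
            exact ⟨l, h1, fun h => by rw [h3 h, add_comm]⟩
          trans := by
            rintro z z' z'' ⟨l, h1, h3⟩ ⟨l', h1', h3'⟩
            have h4 : ∀ h, dot (l + l') (B h) = z.1 h + z''.1 h := fun h => by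
              rw [add_dot, h3, h3', cancel]
            exact ⟨l + l', light _ z.2 _ z''.2 _ _ h1 h1' h4, h4⟩ } }
  let b : C → C := fun z => (Quotient.mk r z).out
  have hb : ∀ z : C, ∃ l : S → ZMod 2, wt l ≤ τ ∧ ∀ h, dot l (B h) = (b z).1 h + z.1 h :=
    fun z => Quotient.mk_out (s := r) z
  choose L hL1 hL2 using hb
  let E0 : Chr H → ZMod 2 := fun z => if hz : z ∈ C then dot (L ⟨z, hz⟩) e else 0
  refine ⟨fun z => E0 z + E0 0, zmod2_add_self _, ?_⟩
  intro z hz z' hz' l hl hadj
  have hbb : b ⟨z, hz⟩ = b ⟨z', hz'⟩ := by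
    have h1 : Quotient.mk r ⟨z, hz⟩ = Quotient.mk r ⟨z', hz'⟩ :=
      Quotient.sound (s := r) ⟨l, hl, hadj⟩
    show (Quotient.mk r ⟨z, hz⟩).out = (Quotient.mk r ⟨z', hz'⟩).out
    rw [h1]
  have e1 : ∀ x y z : ZMod 2, (x + y) + (z + x) = y + z := by decide
  have h1 : ∀ h, dot (l + L ⟨z, hz⟩) (B h) = z' h + (b ⟨z', hz'⟩).1 h := fun h => by
    rw [add_dot, hadj h, hL2, hbb]
    exact e1 _ _ _
  have h3 : wt (l + L ⟨z, hz⟩) ≤ τ :=
    light z' hz' _ (b ⟨z', hz'⟩).2 _ _ hl (hL1 _) h1
  have e2 : ∀ x y : ZMod 2, (x + y) + (y + x) = 0 := by decide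
  have h4 : ∀ h, dot (l + L ⟨z, hz⟩ + L ⟨z', hz'⟩) (B h) = 0 := fun h => by
    rw [add_dot, h1 h, hL2]
    exact e2 _ _
  have h5 : wt (l + L ⟨z, hz⟩ + L ⟨z', hz'⟩) ≤ τ :=
    light z hz z hz _ _ h3 (hL1 _) fun h => by
      rw [h4 h]
      exact (zmod2_add_self _).symm
  have h6 := he _ h5 h4
  rw [add_dot, add_dot] at h6
  show dot l e = E0 z + E0 0 + (E0 z' + E0 0)
  have h7 : E0 z = dot (L ⟨z, hz⟩) e := dif_pos hz
  have h8 : E0 z' = dot (L ⟨z', hz'⟩) e := dif_pos hz'
  rw [h7, h8]
  have e3 : ∀ x y z w : ZMod 2, x + y + z = 0 → x = y + w + (z + w) := by decide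
  exact e3 _ _ _ _ h6

end chars

section rep

variable {K : Type} [Field K] {V : Type} [AddCommGroup V] [Module K V]
  {H : Type} [AddCommGroup H] [Module (ZMod 2) H] [Fintype H]

/-- the projections to the isotypic parts -/
noncomputable def pr (R : H → V →ₗ[K] V) (z : Chr H) : V →ₗ[K] V :=
  (Fintype.card H : K)⁻¹ • ∑ h, sK K (z h) • R h

theorem pr_apply (R : H → V →ₗ[K] V) (z : Chr H) (v : V) :
    pr R z v = (Fintype.card H : K)⁻¹ • ∑ h, sK K (z h) • R h v := by
  unfold pr
  rw [LinearMap.smul_apply, LinearMap.sum_apply]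
  rfl

variable {R : H → V →ₗ[K] V}

theorem R_pr (hR : ∀ h h' v, R (h + h') v = R h (R h' v)) (z : Chr H) (h : H) (v : V) :
    R h (pr R z v) = sK K (z h) • pr R z v := by
  rw [pr_apply, map_smul, map_sum, smul_comm]
  congr 1
  rw [← Equiv.sum_comp (Equiv.addLeft h) (fun h' => sK K (z h') • R h' v), Finset.smul_sum]
  refine Finset.sum_congr rfl fun h' _ => ?_
  show R h (sK K (z h') • R h' v) = sK K (z h) • sK K (z (h + h')) • R (h + h') v
  rw [map_smul, hR, map_add, sK_add, smul_smul, ← mul_assoc, sK_mul_self, one_mul]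

open Classical in
theorem pr_eig (h2 : (2 : K) ≠ 0) (z z' : Chr H) (v : V) (hv : ∀ h, R h v = sK K (z h) • v) :
    pr R z' v = if z' = z then v else 0 := by
  have hc := card_ne_zero K h2 H
  rw [pr_apply]
  have h1 : ∀ h, sK K (z' h) • R h v = sK K ((z' + z).toAddMonoidHom h) • v := by
    intro h
    rw [hv, smul_smul, ← sK_add]
    rfl
  rw [Finset.sum_congr rfl (fun h _ => h1 h), ← Finset.sum_smul, sum_sK]
  by_cases hz : z' = z
  · rw [if_pos hz, if_pos, smul_smul, inv_mul_cancel₀ hc, one_smul]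
    intro h
    show z' h + z h = 0
    rw [hz]
    exact zmod2_add_self _
  · rw [if_neg hz, if_neg, zero_smul, smul_zero]
    intro hall
    refine hz (LinearMap.ext fun h => ?_)
    exact zmod2_eq (hall h)

theorem sum_pr (h2 : (2 : K) ≠ 0) (hR0 : ∀ v, R 0 v = v) (v : V) :
    ∑ z : Chr H, pr R z v = v := by
  classical
  have hc := card_ne_zero K h2 H
  have h1 : ∑ z : Chr H, pr R z v =
      (Fintype.card H : K)⁻¹ • ∑ h, (∑ z : Chr H, sK K (z h)) • R h v := by
    rw [Finset.sum_congr rfl (fun z _ => pr_apply R z v), ← Finset.smul_sum, Finset.sum_comm]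
    congr 1
    exact Finset.sum_congr rfl fun h _ => (Finset.sum_smul).symm
  have h3 : ∀ h : H, (∑ z : Chr H, sK K (z h)) = if h = 0 then (Fintype.card H : K) else 0 := by
    intro h
    let L : Chr H →+ ZMod 2 :=
      { toFun := fun z => z h
        map_zero' := rfl
        map_add' := fun _ _ => rfl }
    have h4 : ∑ z : Chr H, sK K (L z) = _ := sum_sK K L
    have h5 : ∑ z : Chr H, sK K (z h) = ∑ z : Chr H, sK K (L z) := rfl
    rw [h5, h4]
    by_cases hh : h = 0
    · rw [if_pos hh, if_pos, card_Chr]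
      intro z
      show z h = 0
      rw [hh, map_zero]
    · rw [if_neg hh, if_neg]
      intro hall
      exact hh ((Module.forall_dual_apply_eq_zero_iff (ZMod 2) h).mp hall)
  rw [h1]
  have h6 : ∀ h : H, (∑ z : Chr H, sK K (z h)) • R h v =
      if h = 0 then (Fintype.card H : K) • v else 0 := by
    intro h
    rw [h3]
    by_cases hh : h = 0
    · rw [if_pos hh, if_pos hh, hh, hR0]
    · rw [if_neg hh, if_neg hh, zero_smul]
  rw [Finset.sum_congr rfl (fun h _ => h6 h), Finset.sum_ite_eq' univ (0 : H),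
    if_pos (mem_univ _), smul_smul, inv_mul_cancel₀ hc, one_smul]

open Classical in
theorem card_le_finrank (h2 : (2 : K) ≠ 0) (hR : ∀ h h' v, R (h + h') v = R h (R h' v))
    [FiniteDimensional K V] :
    Fintype.card {z : Chr H // pr R z ≠ 0} ≤ Module.finrank K V := by
  have hex : ∀ z : {z : Chr H // pr R z ≠ 0}, ∃ v, pr R z.1 v ≠ 0 := by
    intro z
    by_contra hn
    rw [not_exists] at hn
    exact z.2 (LinearMap.ext fun v => not_not.mp (hn v))
  choose v hv using hex
  have hlin : LinearIndependent K (fun z : {z : Chr H // pr R z ≠ 0} => pr R z.1 (v z)) := by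
    rw [Fintype.linearIndependent_iff]
    intro g hg i
    have h1 := congrArg (pr R i.1) hg
    rw [map_sum, map_zero, Finset.sum_eq_single i] at h1
    · rw [map_smul, pr_eig h2 i.1 i.1 _ (fun h => R_pr hR i.1 h _), if_pos rfl] at h1
      exact (smul_eq_zero.mp h1).resolve_right (hv i)
    · intro j _ hj
      rw [map_smul, pr_eig h2 j.1 i.1 _ (fun h => R_pr hR j.1 h _), if_neg, smul_zero]
      exact fun h => hj (Subtype.ext h).symm
    · intro h
      exact absurd (mem_univ _) h
  exact hlin.fintype_card_le_finrank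

variable {S : Type} [Fintype S] [DecidableEq S]

/-- The twist. -/
theorem twist (h2 : (2 : K) ≠ 0) (hR0 : ∀ v, R 0 v = v)
    (hR : ∀ h h' v, R (h + h') v = R h (R h' v))
    (B : H →ₗ[ZMod 2] (S → ZMod 2)) (a : (S → ZMod 2) → V →ₗ[K] V)
    (ha : ∀ t h v, a (t + B h) v = R h (a t (R h v))) (τ : ℕ)
    (hlow : ∀ (μ : Module.Dual K V) (v : V),
      (fun t => μ (a t v)) ∈ Sp K {l : S → ZMod 2 | wt l ≤ τ})
    (good : ∀ z z' : Chr H, pr R z ≠ 0 → pr R z' ≠ 0 → ∀ l : S → ZMod 2, τ < wt l →
      wt l ≤ 2 * τ → ∃ h, dot l (B h) ≠ z h + z' h)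
    (e : S → ZMod 2)
    (he : ∀ l : S → ZMod 2, wt l ≤ τ → (∀ h, dot l (B h) = 0) → dot l e = 0) :
    ∃ D : V →ₗ[K] V, (∀ v, D (D v) = v) ∧ (∀ t v, D (a t v) = a (t + e) (D v)) ∧
      (∀ v, (∀ h, R h v = v) → D v = v) ∧
      (∀ φ : Module.Dual K V, (∀ h v, φ (R h v) = φ v) → ∀ v, φ (D v) = φ v) := by
  classical
  obtain ⟨E, hE0, hE⟩ := exists_E {z : Chr H | pr R z ≠ 0} B τ
    (fun z hz z' hz' => good z z' hz hz') e he
  let D : V →ₗ[K] V := ∑ z : Chr H, sK K (E z) • pr R z
  have hD : ∀ v, D v = ∑ z : Chr H, sK K (E z) • pr R z v := by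
    intro v
    show (∑ z : Chr H, sK K (E z) • pr R z) v = _
    rw [LinearMap.sum_apply]
    rfl
  have hDpr : ∀ z v, D (pr R z v) = sK K (E z) • pr R z v := by
    intro z v
    rw [hD, Finset.sum_eq_single z]
    · rw [pr_eig h2 z z _ (fun h => R_pr hR z h _), if_pos rfl]
    · intro z' _ hz'
      rw [pr_eig h2 z z' _ (fun h => R_pr hR z h _), if_neg hz', smul_zero]
    · intro h
      exact absurd (mem_univ _) h
  refine ⟨D, ?_, ?_, ?_, ?_⟩
  · intro v
    rw [hD v, map_sum]
    conv_rhs => rw [← sum_pr h2 hR0 v]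
    refine Finset.sum_congr rfl fun z _ => ?_
    rw [map_smul, hDpr, smul_smul, sK_mul_self, one_smul]
  · -- the key computation
    have key : ∀ z z' : Chr H, ∀ t v, pr R z (a (t + e) (pr R z' v)) =
        sK K (E z + E z') • pr R z (a t (pr R z' v)) := by
      intro z z' t v
      by_cases hz : pr R z = 0
      · rw [hz, LinearMap.zero_apply, LinearMap.zero_apply, smul_zero]
      by_cases hz' : pr R z' = 0
      · rw [hz', LinearMap.zero_apply, map_zero, map_zero, map_zero, map_zero, smul_zero]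
      rw [← sub_eq_zero]
      rw [← Module.forall_dual_apply_eq_zero_iff K]
      intro μ
      rw [map_sub, sub_eq_zero, map_smul, smul_eq_mul]
      have hlow' := hlow (μ.comp (pr R z)) (pr R z' v)
      have hpro := proj h2 hlow' B (z + z') (fun t h => by
        show μ (pr R z (a (t + B h) (pr R z' v))) =
          sK K (z h + z' h) * μ (pr R z (a t (pr R z' v)))
        rw [ha, R_pr hR z' h v, map_smul, map_smul, map_smul, map_smul]
        have hcomm : ∀ u, pr R z (R h u) = sK K (z h) • pr R z u := by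
          intro u
          conv_lhs => rw [← sum_pr h2 hR0 u]
          conv_rhs => rw [← sum_pr h2 hR0 u]
          rw [map_sum, map_sum, map_sum, Finset.smul_sum]
          refine Finset.sum_congr rfl fun y _ => ?_
          rw [R_pr hR y h u, map_smul, pr_eig h2 y z _ (fun h => R_pr hR y h _)]
          by_cases hy : z = y
          · rw [if_pos hy, hy]
          · rw [if_neg hy, smul_zero, smul_zero]
        rw [hcomm, map_smul, sK_add, smul_eq_mul, smul_eq_mul]
        ring)
      exact shift hpro e (E z + E z') (fun l hl => hE z hz z' hz' l hl.1 hl.2) t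
    intro t v
    have h1 : ∀ z', D (a t (pr R z' v)) = a (t + e) (D (pr R z' v)) := by
      intro z'
      rw [hDpr, map_smul, hD]
      conv_rhs => rw [← sum_pr h2 hR0 (a (t + e) (pr R z' v))]
      rw [Finset.smul_sum]
      refine Finset.sum_congr rfl fun z _ => ?_
      rw [key, smul_smul, ← sK_add]
      have : E z' + (E z + E z') = E z := by
        have : ∀ x y : ZMod 2, x + (y + x) = y := by decide
        exact this _ _
      rw [this]
    have h3 := sum_pr h2 hR0 v
    conv_lhs => rw [← h3]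
    conv_rhs => rw [← h3]
    rw [map_sum, map_sum, map_sum, map_sum]
    exact Finset.sum_congr rfl fun z' _ => h1 z'
  · intro v hv
    have h1 : ∀ z, pr R z v = if z = 0 then v else 0 := by
      intro z
      exact pr_eig h2 0 z v (fun h => by rw [LinearMap.zero_apply, sK_zero, one_smul]; exact hv h)
    rw [hD, Finset.sum_eq_single 0]
    · rw [h1, if_pos rfl, hE0, sK_zero, one_smul]
    · intro z _ hz
      rw [h1, if_neg hz, smul_zero]
    · intro h
      exact absurd (mem_univ _) h
  · intro φ hφ v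
    have h1 : ∀ z : Chr H, z ≠ 0 → φ (pr R z v) = 0 := by
      intro z hz
      obtain ⟨h, hh⟩ : ∃ h, z h ≠ 0 := by
        by_contra hn
        rw [not_exists] at hn
        exact hz (LinearMap.ext fun h => not_not.mp (hn h))
      have h4 := hφ h (pr R z v)
      rw [R_pr hR, map_smul] at h4
      have h5 : z h = 1 := by
        have : ∀ c : ZMod 2, c ≠ 0 → c = 1 := by decide
        exact this _ hh
      have h6 : sK K (1 : ZMod 2) = -1 := by
        unfold sK
        have : sg 1 = -1 := rfl
        rw [this, Int.cast_neg, Int.cast_one]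
      rw [h5, h6, smul_eq_mul, neg_one_mul] at h4
      have h7 : (2 : K) * φ (pr R z v) = 0 := by
        rw [two_mul]
        nth_rewrite 1 [← h4]
        exact neg_add_cancel _
      exact (mul_eq_zero.mp h7).resolve_left h2
    have h3 : φ (D v) = φ (∑ z : Chr H, pr R z v) := by
      rw [hD, map_sum, map_sum]
      refine Finset.sum_congr rfl fun z _ => ?_
      by_cases hz : z = 0
      · rw [hz, hE0, sK_zero, one_smul]
      · rw [map_smul, h1 z hz, smul_zero]
    rw [h3, sum_pr h2 hR0 v]

end rep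

end Pool.Agent.TH658.Eq
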