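import Pool.Agent.TH658.Eq.Core

set_option autoImplicit false
set_option linter.unusedSectionVars false

/-! The union bound: one wiring good for a family of subspaces and sets of characters. -/

namespace Pool.Agent.TH658.Eq

open Finset Pool.Agent.H30R2.PS

variable {w : ℕ}

open Classical in
/-- the size of the orthogonal complement -/
noncomputable def perp (H : Submodule (ZMod 2) (Gp w)) : ℕ :=
  (univ.filter fun z : Gp w => ∀ h ∈ H, pair h z = 0).card

theorem perp_mul (H : Submodule (ZMod 2) (Gp w)) :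
    perp H * Nat.card H = Fintype.card (Gp w) := perp_card H

theorem perp_eq_index (H : Submodule (ZMod 2) (Gp w)) : perp H = H.toAddSubgroup.index := by
  have h1 := perp_mul H
  have h2 := H.toAddSubgroup.index_mul_card
  rw [Nat.card_eq_fintype_card (α := Gp w)] at h2
  have h3 : Nat.card H.toAddSubgroup = Nat.card H := rfl
  rw [h3] at h2
  have h4 : 0 < Nat.card H := Nat.card_pos
  exact Nat.eq_of_mul_eq_mul_right h4 (h1.trans h2.symm)

/-- the kernel of a character, as a subspace of the group -/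
def kerIn (H : Submodule (ZMod 2) (Gp w)) (χ : Chr H) : Submodule (ZMod 2) (Gp w) :=
  (LinearMap.ker χ).map H.subtype

theorem mem_kerIn (H : Submodule (ZMod 2) (Gp w)) (χ : Chr H) (h : Gp w) :
    h ∈ kerIn H χ ↔ ∃ hh : h ∈ H, χ ⟨h, hh⟩ = 0 := by
  unfold kerIn
  rw [Submodule.mem_map]
  constructor
  · rintro ⟨y, hy, rfl⟩
    exact ⟨y.2, LinearMap.mem_ker.mp hy⟩
  · rintro ⟨hh, h1⟩
    exact ⟨⟨h, hh⟩, LinearMap.mem_ker.mpr h1, rfl⟩

theorem perp_kerIn (H : Submodule (ZMod 2) (Gp w)) (χ : Chr H) :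
    perp (kerIn H χ) ≤ 2 * perp H := by
  have h1 := perp_mul H
  have h2 := perp_mul (kerIn H χ)
  have h3 : Nat.card (kerIn H χ) = Nat.card (LinearMap.ker χ) := by
    refine Nat.card_congr ?_
    exact (Submodule.equivMapOfInjective H.subtype H.injective_subtype _).toEquiv.symm
  have h4 : Nat.card H ≤ 2 * Nat.card (LinearMap.ker χ) := by
    have h5 := Submodule.card_eq_card_quotient_mul_card (LinearMap.ker χ)
    have h6 : Nat.card (H ⧸ LinearMap.ker χ) ≤ 2 := by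
      rw [Nat.card_congr (LinearMap.quotKerEquivRange χ).toEquiv]
      refine (Nat.card_le_card_of_injective (fun x : LinearMap.range χ => (x : ZMod 2))
        Subtype.val_injective).trans ?_
      rw [Nat.card_eq_fintype_card, ZMod.card]
    rw [h5]
    nlinarith
  rw [h3] at h2
  have h7 : 0 < Nat.card (LinearMap.ker χ) := Nat.card_pos
  refine Nat.le_of_mul_le_mul_right ?_ h7
  calc perp (kerIn H χ) * Nat.card (LinearMap.ker χ) = perp H * Nat.card H := by rw [h2, h1]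
    _ ≤ perp H * (2 * Nat.card (LinearMap.ker χ)) := Nat.mul_le_mul_left _ h4
    _ = 2 * perp H * Nat.card (LinearMap.ker χ) := by ring

open Classical in
theorem exists_pi {ι : Type} [Fintype ι] (Hs : ι → Submodule (ZMod 2) (Gp w)) (τ : ℕ)
    (hτ : 3200 * τ ≤ w) (hs : ∑ i, perp (Hs i) < 2 ^ τ) :
    ∃ π : Slot w ≃ Fin (3 * w) × Bool, ∀ i, ∀ l : Slot w → ZMod 2, τ < wt l → wt l ≤ 2 * τ →
      ∃ h ∈ Hs i, dot l (BB π h) ≠ 0 := by
  by_contra hcon
  rw [not_exists] at hcon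
  have hcardS : Fintype.card (Slot w) = Fintype.card (Fin (3 * w) × Bool) := by
    rw [Fintype.card_prod, Fintype.card_prod, Fintype.card_fin, Fintype.card_fin,
      Fintype.card_fin, Fintype.card_bool]
    ring
  let π0 : Slot w ≃ Fin (3 * w) × Bool := Fintype.equivOfCardEq hcardS
  set P : ℝ := ((Fintype.card (Slot w ≃ Fin (3 * w) × Bool) : ℕ) : ℝ) with hP
  have hP0 : 0 < P := by
    have : Nonempty (Slot w ≃ Fin (3 * w) × Bool) := ⟨π0⟩
    rw [hP]
    exact_mod_cast Fintype.card_pos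
  set BH : ι → Finset (Slot w ≃ Fin (3 * w) × Bool) := fun i =>
    univ.filter fun π : Slot w ≃ Fin (3 * w) × Bool =>
      ∃ l : Slot w → ZMod 2, τ < wt l ∧ wt l ≤ 2 * τ ∧ ∀ h ∈ Hs i, dot l (BB π h) = 0 with hBH
  have hcov : (univ : Finset (Slot w ≃ Fin (3 * w) × Bool)) ⊆ univ.biUnion BH := by
    intro π _
    have h1 := hcon π
    rw [not_forall] at h1
    obtain ⟨i, h1⟩ := h1
    rw [not_forall] at h1
    obtain ⟨l, h1⟩ := h1
    rw [Classical.not_imp] at h1
    obtain ⟨h2, h1⟩ := h1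
    rw [Classical.not_imp] at h1
    obtain ⟨h3, h1⟩ := h1
    rw [Finset.mem_biUnion]
    refine ⟨i, mem_univ _, ?_⟩
    rw [hBH]
    refine Finset.mem_filter.mpr ⟨mem_univ _, l, h2, h3, fun h hh => ?_⟩
    by_contra hne
    exact h1 ⟨h, hh, hne⟩
  have hfin : P ≤ (∑ i, perp (Hs i) : ℕ) * (P * (1 / 2) ^ τ) := by
    calc P = ((univ : Finset (Slot w ≃ Fin (3 * w) × Bool)).card : ℝ) := by
          rw [Finset.card_univ]
      _ ≤ ((univ.biUnion BH).card : ℝ) := by exact_mod_cast Finset.card_le_card hcov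
      _ ≤ ∑ i, ((BH i).card : ℝ) := by exact_mod_cast Finset.card_biUnion_le
      _ ≤ ∑ i, (perp (Hs i) : ℝ) * (P * (1 / 2) ^ τ) :=
          Finset.sum_le_sum fun i _ => bad_one (Hs i) τ hτ
      _ = (∑ i, (perp (Hs i) : ℝ)) * (P * (1 / 2) ^ τ) := (Finset.sum_mul _ _ _).symm
      _ = _ := by push_cast; rfl
  have h6 : ((∑ i, perp (Hs i) : ℕ) : ℝ) < 2 ^ τ := by exact_mod_cast hs
  have h7 : ((∑ i, perp (Hs i) : ℕ) : ℝ) * (P * (1 / 2) ^ τ) < 2 ^ τ * (P * (1 / 2) ^ τ) :=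
    mul_lt_mul_of_pos_right h6 (by positivity)
  have h8 : (2 : ℝ) ^ τ * (P * (1 / 2) ^ τ) = P := by
    have h9 : (2 : ℝ) ^ τ * (1 / 2) ^ τ = 1 := by
      rw [← mul_pow]
      norm_num
    calc (2 : ℝ) ^ τ * (P * (1 / 2) ^ τ) = P * (2 ^ τ * (1 / 2) ^ τ) := by ring
      _ = P := by rw [h9, mul_one]
  linarith

/-- One wiring good for all the pairs of characters of a family of sets of characters. -/
theorem exists_good {J : Type} [Fintype J] (Hs : J → Submodule (ZMod 2) (Gp w))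
    (C : ∀ j, Finset (Chr (Hs j))) (τ : ℕ) (hτ : 3200 * τ ≤ w)
    (hs : ∑ j, 2 * (C j).card ^ 2 * perp (Hs j) < 2 ^ τ) :
    ∃ π : Slot w ≃ Fin (3 * w) × Bool, ∀ j, ∀ z ∈ C j, ∀ z' ∈ C j,
      ∀ l : Slot w → ZMod 2, τ < wt l → wt l ≤ 2 * τ →
      ∃ h : Hs j, dot l (BB π (h : Gp w)) ≠ z h + z' h := by
  classical
  obtain ⟨π, hπ⟩ := exists_pi (ι := Σ j, (C j) × (C j))
    (fun i => kerIn (Hs i.1) (i.2.1.1 + i.2.2.1)) τ hτ (by
      refine lt_of_le_of_lt ?_ hs
      rw [Fintype.sum_sigma]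
      refine Finset.sum_le_sum fun j _ => ?_
      calc ∑ p : (C j) × (C j), perp (kerIn (Hs j) (p.1.1 + p.2.1))
          ≤ ∑ _p : (C j) × (C j), 2 * perp (Hs j) :=
            Finset.sum_le_sum fun p _ => perp_kerIn (Hs j) _
        _ = 2 * (C j).card ^ 2 * perp (Hs j) := by
            rw [Finset.sum_const, Finset.card_univ, Fintype.card_prod, Fintype.card_coe,
              smul_eq_mul]
            ring)
  refine ⟨π, fun j z hz z' hz' l hl hl' => ?_⟩
  obtain ⟨h, hh, hne⟩ := hπ ⟨j, ⟨z, hz⟩, ⟨z', hz'⟩⟩ l hl hl'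
  rw [mem_kerIn] at hh
  obtain ⟨hh, h0⟩ := hh
  refine ⟨⟨h, hh⟩, ?_⟩
  have h1 : z ⟨h, hh⟩ + z' ⟨h, hh⟩ = 0 := h0
  rw [h1]
  exact hne

end Pool.Agent.TH658.Eq
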