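import Pool.Agent.TH658.Eq.Prog

set_option autoImplicit false
set_option linter.unusedSectionVars false

/-! Determinantal representations with few symmetries. -/

namespace Pool.Agent.TH658.Eq

open Finset Pool.Agent.H30R2.PS

variable {K : Type} [Field K] {w : ℕ}

/-- a subspace containing the sums of the elements outside has index at most two -/
theorem perp_le_two (H H' : Submodule (ZMod 2) (Gp w)) (_ : H' ≤ H)
    (h2 : ∀ h ∈ H, ∀ h' ∈ H, h ∉ H' → h' ∉ H' → h + h' ∈ H') : perp H' ≤ 2 * perp H := by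
  classical
  have h1 := perp_mul H
  have h3 := perp_mul H'
  have h4 : Nat.card H ≤ 2 * Nat.card H' := by
    by_cases hex : ∃ h ∈ H, h ∉ H'
    · obtain ⟨h0, hh0, hn0⟩ := hex
      have hinj : Function.Injective (fun h : H => if hh : (h : Gp w) ∈ H'
          then ((⟨h, hh⟩, false) : H' × Bool) else (⟨h0 + h, h2 h0 hh0 h h.2 hn0 hh⟩, true)) := by
        intro a b hab
        have hab' : (if hh : (a : Gp w) ∈ H' then ((⟨a, hh⟩, false) : H' × Bool)
            else (⟨h0 + a, h2 h0 hh0 a a.2 hn0 hh⟩, true)) =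
            (if hh : (b : Gp w) ∈ H' then ((⟨b, hh⟩, false) : H' × Bool)
            else (⟨h0 + b, h2 h0 hh0 b b.2 hn0 hh⟩, true)) := hab
        by_cases ha : (a : Gp w) ∈ H'
        · by_cases hb : (b : Gp w) ∈ H'
          · rw [dif_pos ha, dif_pos hb] at hab'
            exact Subtype.ext (congrArg (fun p : H' × Bool => (p.1 : Gp w)) hab')
          · rw [dif_pos ha, dif_neg hb] at hab'
            exact absurd (congrArg Prod.snd hab') Bool.false_ne_true
        · by_cases hb : (b : Gp w) ∈ H'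
          · rw [dif_neg ha, dif_pos hb] at hab'
            exact absurd (congrArg Prod.snd hab').symm Bool.false_ne_true
          · rw [dif_neg ha, dif_neg hb] at hab'
            have h5 : h0 + (a : Gp w) = h0 + b :=
              congrArg (fun p : H' × Bool => (p.1 : Gp w)) hab'
            exact Subtype.ext (add_left_cancel h5)
      have h5 := Nat.card_le_card_of_injective _ hinj
      rw [Nat.card_prod, Nat.card_eq_fintype_card (α := Bool), Fintype.card_bool] at h5
      omega
    · have h5 : H ≤ H' := by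
        intro h hh
        by_contra hn
        exact hex ⟨h, hh, hn⟩
      have h6 : Nat.card H ≤ Nat.card H' :=
        Nat.card_le_card_of_injective (fun h : H => (⟨h, h5 h.2⟩ : H')) fun a b hab =>
          Subtype.ext (congrArg (fun p : H' => (p : Gp w)) hab)
      omega
  have h7 : 0 < Nat.card H' := Nat.card_pos
  refine Nat.le_of_mul_le_mul_right ?_ h7
  calc perp H' * Nat.card H' = perp H * Nat.card H := by rw [h3, h1]
    _ ≤ perp H * (2 * Nat.card H') := Nat.mul_le_mul_left _ h4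
    _ = 2 * perp H * Nat.card H' := by ring

variable {n : ℕ} {Z : Type}

/-- The symmetries given by multiplications on both sides, or with a transposition. -/
theorem det_labelled [CharZero K] [Fintype Z] (hw : 0 < w) (eR : Rw w Z ≃ Fin n)
    (eC : Cl w Z ≃ Fin n) {ι : Type} [Fintype ι] [DecidableEq ι] [Nonempty ι]
    (A : Matrix (Fin n) (Fin n) K → Matrix ι ι K) (d τ : ℕ) (hd : 2 * d ≤ τ)
    (hτ : 3200 * τ ≤ w) (hloc : ∀ i j, (fun X => A X i j) ∈ Loc K n d)
    (hJ : (A (Matrix.of fun _ _ => 1)).det ≠ 0)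
    (hdet : ∀ X Y, (A X).det = (A Y).det → X.permanent = Y.permanent)
    (H : Submodule (ZMod 2) (Gp w))
    (hsym : ∀ h ∈ H, ∃ P Q : (Matrix ι ι K)ˣ,
      (∀ X, A (actm eR eC h X) = P.1 * A X * Q.1) ∨
      (∀ X, A (actm eR eC h X) = P.1 * (A X).transpose * Q.1)) :
    2 ^ τ ≤ 4 * Fintype.card ι ^ 4 * perp H := by
  classical
  have h2 : (2 : K) ≠ 0 := two_ne_zero
  -- the subgroup of the symmetries without transposition
  let H' : Submodule (ZMod 2) (Gp w) :=
    { carrier := {h | h ∈ H ∧ ∃ P Q : (Matrix ι ι K)ˣ,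
        ∀ X, A (actm eR eC h X) = P.1 * A X * Q.1}
      add_mem' := by
        rintro h h' ⟨h1, P, Q, h3⟩ ⟨h1', P', Q', h3'⟩
        refine ⟨H.add_mem h1 h1', P * P', Q' * Q, fun X => ?_⟩
        rw [actm_add, h3, h3', Units.val_mul, Units.val_mul]
        simp only [mul_assoc]
      zero_mem' := ⟨H.zero_mem, 1, 1, fun X => by
        rw [actm_zero, Units.val_one, one_mul, mul_one]⟩
      smul_mem' := by
        rintro c h ⟨h1, P, Q, h3⟩
        have hc : c = 0 ∨ c = 1 := by
          revert c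
          decide
        rcases hc with rfl | rfl
        · rw [zero_smul]
          exact ⟨H.zero_mem, 1, 1, fun X => by
            rw [actm_zero, Units.val_one, one_mul, mul_one]⟩
        · rw [one_smul]
          exact ⟨h1, P, Q, h3⟩ }
  have hH' : perp H' ≤ 2 * perp H := by
    refine perp_le_two H H' (fun h hh => hh.1) ?_
    intro h hh h' hh' hn hn'
    obtain ⟨P, Q, h3⟩ := hsym h hh
    obtain ⟨P', Q', h3'⟩ := hsym h' hh'
    have h3 : ∀ X, A (actm eR eC h X) = P.1 * (A X).transpose * Q.1 :=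
      h3.resolve_left fun h4 => hn ⟨hh, P, Q, h4⟩
    have h3' : ∀ X, A (actm eR eC h' X) = P'.1 * (A X).transpose * Q'.1 :=
      h3'.resolve_left fun h4 => hn' ⟨hh', P', Q', h4⟩
    have hT : ∀ q : (Matrix ι ι K)ˣ, ∃ r : (Matrix ι ι K)ˣ, r.1 = q.1.transpose := by
      intro q
      refine ⟨⟨q.1.transpose, q⁻¹.1.transpose, ?_, ?_⟩, rfl⟩
      · rw [← Matrix.transpose_mul, q.inv_mul, Matrix.transpose_one]
      · rw [← Matrix.transpose_mul, q.mul_inv, Matrix.transpose_one]
    obtain ⟨r, hr⟩ := hT P'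
    obtain ⟨r', hr'⟩ := hT Q'
    refine ⟨H.add_mem hh hh', P * r', r * Q, fun X => ?_⟩
    rw [actm_add, h3, h3', Units.val_mul, Units.val_mul, hr, hr', Matrix.transpose_mul,
      Matrix.transpose_mul, Matrix.transpose_transpose]
    simp only [mul_assoc]
  -- normalization at the all-ones matrix
  set J : Matrix (Fin n) (Fin n) K := Matrix.of fun _ _ => 1 with hJdef
  have hJu : IsUnit (A J) := (Matrix.isUnit_iff_isUnit_det (A J)).mpr (isUnit_iff_ne_zero.mpr hJ)
  obtain ⟨u, hu⟩ := hJu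
  have hJact : ∀ h : Gp w, actm eR eC h J = J := fun h => rfl
  let M : Matrix (Fin n) (Fin n) K → Matrix ι ι K := fun X => u⁻¹.1 * A X
  have hM : ∀ h ∈ H', ∃ q : (Matrix ι ι K)ˣ, ∀ x, M (actm eR eC h x) = q.1 * M x * q⁻¹.1 := by
    rintro h ⟨_, P, Q, h3⟩
    have h4 := h3 J
    rw [hJact, ← hu] at h4
    -- u = P u Q, so u⁻¹ P = Q⁻¹ u⁻¹
    have h5 : u = P * u * Q := Units.ext h4
    have h6 : u⁻¹ * P = Q⁻¹ * u⁻¹ := by
      have h7 : P * u = u * Q⁻¹ := by
        rw [eq_mul_inv_iff_mul_eq]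
        exact h5.symm
      have h8 : P = u * Q⁻¹ * u⁻¹ := by
        rw [eq_mul_inv_iff_mul_eq]
        exact h7
      rw [h8]
      group
    refine ⟨Q⁻¹, fun X => ?_⟩
    show u⁻¹.1 * A (actm eR eC h X) = Q⁻¹.1 * (u⁻¹.1 * A X) * Q⁻¹⁻¹.1
    rw [h3, inv_inv, ← mul_assoc, ← mul_assoc, ← mul_assoc, ← Units.val_mul, h6, Units.val_mul]
  obtain ⟨C, hC, hCc, hCv⟩ := inv_traces h2 (actm eR eC) (actm_zero eR eC)
    (actm_add eR eC) H' M hM
  have hinv := hCv (fun X => X.permanent) (fun X Y hXY => by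
    refine hdet X Y ?_
    have h3 := det_eq_of_traces (M X) (M Y) hXY
    have h4 : (M X).det = (u⁻¹.1).det * (A X).det := Matrix.det_mul _ _
    have h5 : (M Y).det = (u⁻¹.1).det * (A Y).det := Matrix.det_mul _ _
    rw [h4, h5] at h3
    refine mul_left_cancel₀ ?_ h3
    intro h0
    have h6 : (u⁻¹.1).det * (u.1).det = 1 := by
      rw [← Matrix.det_mul, u.inv_mul, Matrix.det_one]
    rw [h0, zero_mul] at h6
    exact zero_ne_one h6)
  have hE : ∀ i j, (fun X => M X i j) ∈ Loc K n d := by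
    intro i j
    have h3 : (fun X => M X i j) = ∑ k, (u⁻¹.1 i k) • fun X => A X k j := by
      funext X
      rw [Finset.sum_apply]
      rfl
    rw [h3]
    exact Submodule.sum_mem _ fun k _ => Submodule.smul_mem _ _ (hloc k j)
  have hfin := engine (K := K) h2 hw eR eC (s := 1) (fun _ => H') (fun _ => C) (fun _ => hC)
    (fun _ => {f | ∃ i j, f = fun x => M x i j}) (fun _ X => X.permanent) (fun _ => hinv)
    d τ hd hτ (by
      rintro _ f ⟨i, j, rfl⟩
      exact Submodule.mem_sup_left (hE i j))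
    (Submodule.mem_sup_right (Submodule.subset_span ⟨0, rfl⟩))
  rw [Fin.sum_univ_one] at hfin
  refine hfin.trans ?_
  calc 2 * C.card ^ 2 * perp H' ≤ 2 * (Fintype.card ι ^ 2) ^ 2 * (2 * perp H) :=
        Nat.mul_le_mul (Nat.mul_le_mul_left _ (Nat.pow_le_pow_left hCc 2)) hH'
    _ = 4 * Fintype.card ι ^ 4 * perp H := by ring

/-- the action of the group through the embeddings -/
noncomputable def acte (ρ : Fin (2 * w) × Four ↪ Fin n) (κ : Fin (3 * w) × ZMod 2 ↪ Fin n)
    (h : Gp w) (X : Matrix (Fin n) (Fin n) K) : Matrix (Fin n) (Fin n) K :=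
  X.submatrix ((quadPerm h.2).viaEmbedding ρ) ((pairPerm h.1).viaEmbedding κ)

/-- bijections extending the embeddings -/
theorem exists_labels (hn : 8 * w ≤ n) (ρ : Fin (2 * w) × Four ↪ Fin n)
    (κ : Fin (3 * w) × ZMod 2 ↪ Fin n) :
    ∃ (eR : Rw w (Fin (n - 8 * w)) ≃ Fin n) (eC : Cl w (Fin (n - 8 * w)) ≃ Fin n),
      ∀ h : Gp w, eR.permCongr (rowAct h.2) = (quadPerm h.2).viaEmbedding ρ ∧
        eC.permCongr (colAct h.1) = (pairPerm h.1).viaEmbedding κ := by
  classical
  obtain ⟨eR, heR⟩ := exists_extend (γ := Fin (n - 8 * w)) ρ (by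
    rw [Fintype.card_prod, Fintype.card_prod, Fintype.card_fin, Fintype.card_fin,
      Fintype.card_fin, ZMod.card]
    omega)
  obtain ⟨eC', heC'⟩ := exists_extend (γ := Fin (2 * w) ⊕ Fin (n - 8 * w)) κ (by
    rw [Fintype.card_sum, Fintype.card_prod, Fintype.card_fin, Fintype.card_fin,
      Fintype.card_fin, Fintype.card_fin, ZMod.card]
    omega)
  let eC : Cl w (Fin (n - 8 * w)) ≃ Fin n := (Equiv.sumAssoc _ _ _).trans eC'
  have heC : ∀ x, eC (Sum.inl (Sum.inl x)) = κ x := heC'
  refine ⟨eR, eC, fun h => ⟨?_, ?_⟩⟩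
  · refine Equiv.ext fun b => ?_
    obtain ⟨r, rfl⟩ := eR.surjective b
    rw [Equiv.permCongr_apply, Equiv.symm_apply_apply]
    rcases r with x | z
    · rw [heR, Equiv.Perm.viaEmbedding_apply, ← heR]
      rfl
    · rw [Equiv.Perm.viaEmbedding_apply_of_notMem]
      · rfl
      · rintro ⟨x, hx⟩
        rw [← heR] at hx
        exact Sum.inl_ne_inr (eR.injective hx)
  · refine Equiv.ext fun b => ?_
    obtain ⟨r, rfl⟩ := eC.surjective b
    rw [Equiv.permCongr_apply, Equiv.symm_apply_apply]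
    rcases r with (x | u) | z
    · rw [heC, Equiv.Perm.viaEmbedding_apply, ← heC]
      rfl
    · rw [Equiv.Perm.viaEmbedding_apply_of_notMem]
      · rfl
      · rintro ⟨x, hx⟩
        rw [← heC] at hx
        exact Sum.inl_ne_inr (Sum.inl.inj (eC.injective hx))
    · rw [Equiv.Perm.viaEmbedding_apply_of_notMem]
      · rfl
      · rintro ⟨x, hx⟩
        rw [← heC] at hx
        exact Sum.inl_ne_inr (eC.injective hx)

end Pool.Agent.TH658.Eq
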