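import Pool.Agent.H30R2.PS.Final

set_option autoImplicit false

/-! Functions on `S → ZMod 2` with values in a field in which `2 ≠ 0`: spans of characters. -/

namespace Pool.Agent.TH658.Eq

open Finset Pool.Agent.H30R2.PS

variable (K : Type) [Field K]

/-- the sign in the field -/
def sK (x : ZMod 2) : K := ((sg x : ℤ) : K)

theorem sK_zero : sK K 0 = 1 := by
  unfold sK
  have : sg 0 = 1 := rfl
  rw [this, Int.cast_one]

theorem sK_add (x y : ZMod 2) : sK K (x + y) = sK K x * sK K y := by
  unfold sK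
  rw [sg_add, Int.cast_mul]

theorem sK_mul_self (x : ZMod 2) : sK K x * sK K x = 1 := by
  unfold sK
  rw [← Int.cast_mul, sg_mul_self, Int.cast_one]

theorem sK_ne_zero (x : ZMod 2) : sK K x ≠ 0 := by
  intro h
  have h1 := sK_mul_self K x
  rw [h, mul_zero] at h1
  exact zero_ne_one h1

open Classical in
theorem sum_sK {M : Type*} [AddCommGroup M] [Fintype M] (L : M →+ ZMod 2) :
    ∑ x : M, sK K (L x) = if ∀ x, L x = 0 then (Fintype.card M : K) else 0 := by
  have h := congrArg (Int.cast : ℤ → K) (char_sum L)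
  rw [Int.cast_sum] at h
  unfold sK
  rw [h]
  by_cases h1 : ∀ x, L x = 0
  · rw [if_pos h1, if_pos h1]
    push_cast
    rfl
  · rw [if_neg h1, if_neg h1, Int.cast_zero]

/-- the cardinality of a finite vector space over `ZMod 2` is not zero in the field -/
theorem card_ne_zero (h2 : (2 : K) ≠ 0) (M : Type*) [AddCommGroup M] [Module (ZMod 2) M]
    [Fintype M] : (Fintype.card M : K) ≠ 0 := by
  have h := Module.card_eq_pow_finrank (K := ZMod 2) (V := M)
  rw [h, ZMod.card, Nat.cast_pow]
  exact pow_ne_zero _ (by exact_mod_cast h2)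

variable {S : Type} [Fintype S]

/-- the character of `l` -/
def ch (l : S → ZMod 2) : (S → ZMod 2) → K := fun t => sK K (dot l t)

/-- the span of the characters of the elements of a set -/
def Sp (Λ : Set (S → ZMod 2)) : Submodule K ((S → ZMod 2) → K) :=
  Submodule.span K (ch K '' Λ)

variable {K}

theorem ch_mem {Λ : Set (S → ZMod 2)} {l : S → ZMod 2} (hl : l ∈ Λ) : ch K l ∈ Sp K Λ :=
  Submodule.subset_span ⟨l, hl, rfl⟩

theorem Sp_mono {Λ Λ' : Set (S → ZMod 2)} (h : Λ ⊆ Λ') : Sp K Λ ≤ Sp K Λ' :=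
  Submodule.span_mono (Set.image_mono h)

/-- a translation multiplies the functions of the span by a sign, if it does so for all the
characters -/
theorem shift {Λ : Set (S → ZMod 2)} {F : (S → ZMod 2) → K} (hF : F ∈ Sp K Λ)
    (e : S → ZMod 2) (c : ZMod 2) (he : ∀ l ∈ Λ, dot l e = c) (t : S → ZMod 2) :
    F (t + e) = sK K c * F t := by
  revert t
  refine Submodule.span_induction (p := fun F _ => ∀ t, F (t + e) = sK K c * F t)
    ?_ ?_ ?_ ?_ hF
  · rintro _ ⟨l, hl, rfl⟩ t
    unfold ch
    rw [dot_add, he l hl, sK_add, mul_comm]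
  · intro t
    rw [Pi.zero_apply, Pi.zero_apply, mul_zero]
  · intro F G _ _ h1 h2 t
    rw [Pi.add_apply, Pi.add_apply, h1, h2, mul_add]
  · intro a F _ h1 t
    rw [Pi.smul_apply, Pi.smul_apply, h1, smul_eq_mul, smul_eq_mul]
    ring

/-- the sum of the translates, with signs -/
def Av {H : Type} [AddCommGroup H] [Module (ZMod 2) H] [Fintype H]
    (B : H →ₗ[ZMod 2] (S → ZMod 2)) (χ : H →ₗ[ZMod 2] ZMod 2) :
    ((S → ZMod 2) → K) →ₗ[K] ((S → ZMod 2) → K) where
  toFun F := fun t => ∑ h, sK K (χ h) * F (t + B h)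
  map_add' F G := by
    funext t
    rw [Pi.add_apply, ← Finset.sum_add_distrib]
    exact Finset.sum_congr rfl fun h _ => by rw [Pi.add_apply, mul_add]
  map_smul' c F := by
    funext t
    rw [RingHom.id_apply, Pi.smul_apply, smul_eq_mul, Finset.mul_sum]
    exact Finset.sum_congr rfl fun h _ => by
      rw [Pi.smul_apply, smul_eq_mul]
      ring

theorem zmod2_eq {x y : ZMod 2} (h : x + y = 0) : x = y := by
  revert x y
  decide

open Classical in
theorem Av_ch {H : Type} [AddCommGroup H] [Module (ZMod 2) H] [Fintype H]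
    (B : H →ₗ[ZMod 2] (S → ZMod 2)) (χ : H →ₗ[ZMod 2] ZMod 2) (l : S → ZMod 2) :
    Av B χ (ch K l) =
      (if ∀ h, dot l (B h) = χ h then (Fintype.card H : K) else 0) • ch K l := by
  funext t
  let L : H →+ ZMod 2 :=
    { toFun := fun h => χ h + dot l (B h)
      map_zero' := by rw [map_zero, map_zero, dot_zero, add_zero]
      map_add' := fun h h' => by
        rw [map_add, map_add, dot_add]
        ring }
  have h1 : Av B χ (ch K l) t = (∑ h, sK K (L h)) * ch K l t := by
    show ∑ h, sK K (χ h) * ch K l (t + B h) = _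
    rw [Finset.sum_mul]
    refine Finset.sum_congr rfl fun h _ => ?_
    show sK K (χ h) * sK K (dot l (t + B h)) = sK K (χ h + dot l (B h)) * sK K (dot l t)
    rw [dot_add, sK_add, sK_add]
    ring
  rw [h1, sum_sK, Pi.smul_apply, smul_eq_mul]
  congr 1
  refine if_congr ⟨fun h h' => ?_, fun h h' => ?_⟩ rfl rfl
  · exact (zmod2_eq (h h')).symm
  · show χ h' + dot l (B h') = 0
    rw [h h']
    exact zmod2_add_self _

theorem Av_mem {Λ : Set (S → ZMod 2)} {F : (S → ZMod 2) → K} (hF : F ∈ Sp K Λ)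
    {H : Type} [AddCommGroup H] [Module (ZMod 2) H] [Fintype H]
    (B : H →ₗ[ZMod 2] (S → ZMod 2)) (χ : H →ₗ[ZMod 2] ZMod 2) :
    Av B χ F ∈ Sp K {l | l ∈ Λ ∧ ∀ h, dot l (B h) = χ h} := by
  classical
  refine Submodule.span_induction
    (p := fun F _ => Av B χ F ∈ Sp K {l | l ∈ Λ ∧ ∀ h, dot l (B h) = χ h}) ?_ ?_ ?_ ?_ hF
  · rintro _ ⟨l, hl, rfl⟩
    rw [Av_ch]
    by_cases h : ∀ h, dot l (B h) = χ h
    · exact Submodule.smul_mem _ _ (ch_mem ⟨hl, h⟩)
    · rw [if_neg h, zero_smul]
      exact Submodule.zero_mem _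
  · rw [map_zero]
    exact Submodule.zero_mem _
  · intro F G _ _ h1 h2
    rw [map_add]
    exact Submodule.add_mem _ h1 h2
  · intro a F _ h1
    rw [map_smul]
    exact Submodule.smul_mem _ _ h1

/-- The equivariant functions of a span of characters are in the span of the adapted ones. -/
theorem proj (h2 : (2 : K) ≠ 0) {Λ : Set (S → ZMod 2)} {F : (S → ZMod 2) → K}
    (hF : F ∈ Sp K Λ) {H : Type} [AddCommGroup H] [Module (ZMod 2) H] [Fintype H]
    (B : H →ₗ[ZMod 2] (S → ZMod 2)) (χ : H →ₗ[ZMod 2] ZMod 2)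
    (hequi : ∀ t h, F (t + B h) = sK K (χ h) * F t) :
    F ∈ Sp K {l | l ∈ Λ ∧ ∀ h, dot l (B h) = χ h} := by
  have hc := card_ne_zero K h2 H
  have h1 : Av B χ F = (Fintype.card H : K) • F := by
    funext t
    show ∑ h, sK K (χ h) * F (t + B h) = (Fintype.card H : K) • F t
    have h3 : ∀ h, sK K (χ h) * F (t + B h) = F t := by
      intro h
      rw [hequi, ← mul_assoc, sK_mul_self, one_mul]
    rw [Finset.sum_congr rfl (fun h _ => h3 h), Finset.sum_const, Finset.card_univ,
      nsmul_eq_mul, smul_eq_mul]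
  have h3 : F = (Fintype.card H : K)⁻¹ • Av B χ F := by
    rw [h1, smul_smul, inv_mul_cancel₀ hc, one_smul]
  rw [h3]
  exact Submodule.smul_mem _ _ (Av_mem hF B χ)

/-- the adjoint of the sum: all functions are sums of characters -/
theorem mem_univ_Sp (h2 : (2 : K) ≠ 0) (F : (S → ZMod 2) → K) : F ∈ Sp K Set.univ := by
  classical
  have hc := card_ne_zero K h2 (S → ZMod 2)
  have h1 : F = ∑ s : S → ZMod 2, ∑ l : S → ZMod 2,
      (F s * sK K (dot l s) * (Fintype.card (S → ZMod 2) : K)⁻¹) • ch K l := by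
    funext t
    rw [Finset.sum_apply]
    have h3 : ∀ s : S → ZMod 2, (∑ l : S → ZMod 2,
        (F s * sK K (dot l s) * (Fintype.card (S → ZMod 2) : K)⁻¹) • ch K l) t =
        if s = t then F t else 0 := by
      intro s
      rw [Finset.sum_apply]
      let L : (S → ZMod 2) →+ ZMod 2 :=
        { toFun := fun l => dot l (s + t)
          map_zero' := zero_dot _
          map_add' := fun h h' => add_dot _ _ _ }
      have h4 : ∀ l : S → ZMod 2,
          ((F s * sK K (dot l s) * (Fintype.card (S → ZMod 2) : K)⁻¹) • ch K l) t =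
          (F s * (Fintype.card (S → ZMod 2) : K)⁻¹) * sK K (L l) := by
        intro l
        show (F s * sK K (dot l s) * (Fintype.card (S → ZMod 2) : K)⁻¹) * sK K (dot l t) =
          (F s * (Fintype.card (S → ZMod 2) : K)⁻¹) * sK K (dot l (s + t))
        rw [dot_add, sK_add]
        ring
      rw [Finset.sum_congr rfl (fun l _ => h4 l), ← Finset.mul_sum, sum_sK]
      by_cases hst : s = t
      · subst hst
        rw [if_pos rfl, if_pos]
        · rw [mul_assoc, inv_mul_cancel₀ hc, mul_one]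
        · intro l
          show dot l (s + s) = 0
          have : s + s = 0 := by
            funext j
            exact zmod2_add_self _
          rw [this, dot_zero]
      · rw [if_neg hst, if_neg, mul_zero]
        intro hL
        refine hst ?_
        funext j
        have h5 : dot (Pi.single j 1) (s + t) = 0 := hL (Pi.single j 1)
        rw [dot_single] at h5
        exact zmod2_eq h5
    rw [Finset.sum_congr rfl (fun s _ => h3 s), Finset.sum_ite_eq' univ t, if_pos (mem_univ t)]
  rw [h1]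
  exact Submodule.sum_mem _ fun s _ => Submodule.sum_mem _ fun l _ =>
    Submodule.smul_mem _ _ (ch_mem (Set.mem_univ l))

/-- Functions not depending on the coordinates outside of `J`. -/
theorem junta (h2 : (2 : K) ≠ 0) (F : (S → ZMod 2) → K) (J : Finset S)
    (hJ : ∀ t t', (∀ j ∈ J, t j = t' j) → F t = F t') :
    F ∈ Sp K {l | ∀ j, j ∉ J → l j = 0} := by
  classical
  let Hs : Submodule (ZMod 2) (S → ZMod 2) :=
    { carrier := {h | ∀ j ∈ J, h j = 0}
      add_mem' := fun {a b} ha hb j hj => by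
        rw [Pi.add_apply, ha j hj, hb j hj, add_zero]
      zero_mem' := fun j _ => rfl
      smul_mem' := fun c {a} ha j hj => by
        rw [Pi.smul_apply, ha j hj, smul_zero] }
  have h1 := proj h2 (mem_univ_Sp h2 F) Hs.subtype 0 (fun t h => by
    rw [LinearMap.zero_apply, sK_zero, one_mul]
    refine hJ _ _ fun j hj => ?_
    have h3 : (h : S → ZMod 2) j = 0 := h.2 j hj
    show t j + (h : S → ZMod 2) j = t j
    rw [h3, add_zero])
  refine Sp_mono ?_ h1
  rintro l ⟨_, hl⟩ j hj
  have h3 : (Pi.single j 1 : S → ZMod 2) ∈ Hs := by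
    intro i hi
    have hne : i ≠ j := fun h => hj (h ▸ hi)
    exact Pi.single_eq_of_ne hne 1
  have h4 := hl ⟨_, h3⟩
  have h5 : dot l (Pi.single j 1) = 0 := h4
  rw [dot_comm, dot_single] at h5
  exact h5

theorem wt_le_of_supp (l : S → ZMod 2) (J : Finset S) (h : ∀ j, j ∉ J → l j = 0) :
    wt l ≤ J.card := by
  classical
  unfold wt
  refine Finset.card_le_card ?_
  intro j hj
  rw [Finset.mem_filter] at hj
  by_contra hn
  exact hj.2 (h j hn)

/-- The functions invariant under the translations by the annihilator of a subspace. -/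
theorem mem_of_ann (h2 : (2 : K) ≠ 0) (F : (S → ZMod 2) → K)
    (U : Submodule (ZMod 2) (S → ZMod 2)) (hF : ∀ e ∈ ann U, ∀ t, F (t + e) = F t) :
    F ∈ Sp K (U : Set (S → ZMod 2)) := by
  classical
  have h1 := proj h2 (mem_univ_Sp h2 F) (ann U).subtype 0 (fun t h => by
    rw [LinearMap.zero_apply, sK_zero, one_mul]
    exact hF h.1 h.2 t)
  refine Sp_mono ?_ h1
  rintro l ⟨_, hl⟩
  exact mem_of_kills_ann U l fun x hx => hl ⟨x, hx⟩

end Pool.Agent.TH658.Eq
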