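import Pool.Agent.TH658.Eq.Count

set_option autoImplicit false
set_option linter.unusedSectionVars false

/-! Local functions of a matrix, and their restrictions to the family of matrices. -/

namespace Pool.Agent.TH658.Eq

open Finset Pool.Agent.H30R2.PS

/-- Sums of functions of an `n × n` matrix each of which reads at most `d` entries. -/
def Loc (K : Type) [Field K] (n d : ℕ) : Submodule K (Matrix (Fin n) (Fin n) K → K) :=
  Submodule.span K {g | ∃ J : Finset (Fin n × Fin n), J.card ≤ d ∧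
    ∀ X Y : Matrix (Fin n) (Fin n) K, (∀ p ∈ J, X p.1 p.2 = Y p.1 p.2) → g X = g Y}

variable {K : Type} [Field K] {n : ℕ}

theorem Loc_mono {d d' : ℕ} (h : d ≤ d') : Loc K n d ≤ Loc K n d' := by
  refine Submodule.span_mono ?_
  rintro g ⟨J, hJ, hg⟩
  exact ⟨J, hJ.trans h, hg⟩

/-- polynomials of degree at most `d` are local -/
theorem poly_loc {d : ℕ} (p : MvPolynomial (Fin n × Fin n) K) (hp : p.totalDegree ≤ d) :
    (fun X : Matrix (Fin n) (Fin n) K => MvPolynomial.eval (fun q => X q.1 q.2) p) ∈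
      Loc K n d := by
  classical
  have h1 : (fun X : Matrix (Fin n) (Fin n) K => MvPolynomial.eval (fun q => X q.1 q.2) p) =
      ∑ m ∈ p.support, fun X : Matrix (Fin n) (Fin n) K =>
        p.coeff m * ∏ q ∈ m.support, X q.1 q.2 ^ m q := by
    funext X
    rw [MvPolynomial.eval_eq, Finset.sum_apply]
  rw [h1]
  refine Submodule.sum_mem _ fun m hm => Submodule.subset_span ⟨m.support, ?_, ?_⟩
  · refine le_trans ?_ ((MvPolynomial.le_totalDegree hm).trans hp)
    rw [Finset.card_eq_sum_ones]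
    unfold Finsupp.sum
    refine Finset.sum_le_sum fun q hq => ?_
    exact Nat.one_le_iff_ne_zero.mpr (Finsupp.mem_support_iff.mp hq)
  · intro X Y hXY
    show p.coeff m * ∏ q ∈ m.support, X q.1 q.2 ^ m q =
      p.coeff m * ∏ q ∈ m.support, Y q.1 q.2 ^ m q
    congr 1
    exact Finset.prod_congr rfl fun q hq => by rw [hXY q hq]

variable {w : ℕ} {Z : Type}

/-- the matrices of the family -/
noncomputable def xm (K : Type) [Field K] (π : Slot w ≃ Fin (3 * w) × Bool)
    (eR : Rw w Z ≃ Fin n) (eC : Cl w Z ≃ Fin n) (t : Slot w → ZMod 2) :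
    Matrix (Fin n) (Fin n) K :=
  Matrix.of fun i j => MM K π t (eR.symm i) (eC.symm j)

/-- the slots of a column -/
def slotsOf (π : Slot w ≃ Fin (3 * w) × Bool) (c : Cl w Z) : Finset (Slot w) :=
  match c with
  | Sum.inl (Sum.inl (p, _)) => {π.symm (p, false), π.symm (p, true)}
  | Sum.inl (Sum.inr _) => ∅
  | Sum.inr _ => ∅

theorem card_slotsOf (π : Slot w ≃ Fin (3 * w) × Bool) (c : Cl w Z) :
    (slotsOf π c).card ≤ 2 := by
  rcases c with (⟨p, c'⟩ | u) | z
  · exact Finset.card_le_two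
  · exact Nat.zero_le _
  · exact Nat.zero_le _

theorem locc_subset (π : Slot w ≃ Fin (3 * w) × Bool) (r : Rw w Z) (c : Cl w Z) (s : Slot w)
    (hs : s ∈ locc π r c) : s ∈ slotsOf π c := by
  obtain ⟨s', c', _, rfl⟩ := hs
  show s ∈ ({π.symm ((π s).1, false), π.symm ((π s).1, true)} : Finset (Slot w))
  rw [Finset.mem_insert, Finset.mem_singleton]
  cases hb : (π s).2 with
  | false =>
    left
    rw [Equiv.eq_symm_apply]
    exact Prod.ext rfl hb
  | true =>
    right
    rw [Equiv.eq_symm_apply]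
    exact Prod.ext rfl hb

/-- local functions of the matrices of the family have low degree -/
theorem low (h2 : (2 : K) ≠ 0) {d : ℕ} (π : Slot w ≃ Fin (3 * w) × Bool)
    (eR : Rw w Z ≃ Fin n) (eC : Cl w Z ≃ Fin n) (f : Matrix (Fin n) (Fin n) K → K)
    (hf : f ∈ Loc K n d) :
    (fun t => f (xm K π eR eC t)) ∈ Sp K {l : Slot w → ZMod 2 | wt l ≤ 2 * d} := by
  classical
  refine Submodule.span_induction
    (p := fun f _ => (fun t => f (xm K π eR eC t)) ∈
      Sp K {l : Slot w → ZMod 2 | wt l ≤ 2 * d}) ?_ ?_ ?_ ?_ hf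
  · rintro g ⟨J, hJ, hg⟩
    let J' : Finset (Slot w) := J.biUnion fun p => slotsOf π (eC.symm p.2)
    have hJ' : J'.card ≤ 2 * d := by
      refine Finset.card_biUnion_le.trans ?_
      calc ∑ p ∈ J, (slotsOf π (eC.symm p.2)).card ≤ ∑ _p ∈ J, 2 :=
            Finset.sum_le_sum fun p _ => card_slotsOf π _
        _ = 2 * J.card := by rw [Finset.sum_const, smul_eq_mul, mul_comm]
        _ ≤ 2 * d := Nat.mul_le_mul_left _ hJ
    refine Sp_mono (fun l hl => (wt_le_of_supp l J' hl).trans hJ') (junta h2 _ J' ?_)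
    intro t t' htt
    refine hg _ _ fun p hp => ?_
    show MM K π t (eR.symm p.1) (eC.symm p.2) = MM K π t' (eR.symm p.1) (eC.symm p.2)
    have h3 : t' = t + (t + t') := by
      funext j
      rw [Pi.add_apply, Pi.add_apply, ← add_assoc, zmod2_add_self, zero_add]
    rw [h3]
    refine (MM_loc π t (t + t') _ _ fun s hs => ?_).symm
    have h4 : s ∈ J' := Finset.mem_biUnion.mpr ⟨p, hp, locc_subset π _ _ s hs⟩
    rw [Pi.add_apply, htt s h4]
    exact zmod2_add_self _
  · exact Submodule.zero_mem _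
  · intro f g _ _ h3 h4
    exact Submodule.add_mem _ h3 h4
  · intro c f _ h3
    exact Submodule.smul_mem _ c h3

/-- the action on the matrices -/
noncomputable def actm (eR : Rw w Z ≃ Fin n) (eC : Cl w Z ≃ Fin n) (h : Gp w)
    (X : Matrix (Fin n) (Fin n) K) : Matrix (Fin n) (Fin n) K :=
  X.submatrix (eR.permCongr (rowAct h.2)) (eC.permCongr (colAct h.1))

theorem actm_zero (eR : Rw w Z ≃ Fin n) (eC : Cl w Z ≃ Fin n) (X : Matrix (Fin n) (Fin n) K) :
    actm eR eC (0 : Gp w) X = X := by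
  unfold actm
  have h1 : (0 : Gp w).1 = 0 := rfl
  have h2 : (0 : Gp w).2 = 0 := rfl
  rw [h1, h2, rowAct_zero, colAct_zero]
  refine Matrix.ext fun i j => ?_
  show X (eR (eR.symm i)) (eC (eC.symm j)) = X i j
  rw [Equiv.apply_symm_apply, Equiv.apply_symm_apply]

theorem actm_add (eR : Rw w Z ≃ Fin n) (eC : Cl w Z ≃ Fin n) (h h' : Gp w)
    (X : Matrix (Fin n) (Fin n) K) :
    actm eR eC (h + h') X = actm eR eC h (actm eR eC h' X) := by
  unfold actm
  refine Matrix.ext fun i j => ?_
  show X (eR (rowAct (h.2 + h'.2) (eR.symm i))) (eC (colAct (h.1 + h'.1) (eC.symm j))) =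
    X (eR (rowAct h'.2 (eR.symm (eR (rowAct h.2 (eR.symm i))))))
      (eC (colAct h'.1 (eC.symm (eC (colAct h.1 (eC.symm j))))))
  rw [Equiv.symm_apply_apply, Equiv.symm_apply_apply, add_comm h.2, add_comm h.1, rowAct_add,
    colAct_add]
  rfl

theorem xm_equi (π : Slot w ≃ Fin (3 * w) × Bool) (eR : Rw w Z ≃ Fin n)
    (eC : Cl w Z ≃ Fin n) (t : Slot w → ZMod 2) (h : Gp w) :
    xm K π eR eC (t + BB π h) = actm eR eC h (xm K π eR eC t) := by
  refine Matrix.ext fun i j => ?_
  show MM K π (t + BB π h) (eR.symm i) (eC.symm j) =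
    MM K π t (eR.symm (eR (rowAct h.2 (eR.symm i)))) (eC.symm (eC (colAct h.1 (eC.symm j))))
  rw [Equiv.symm_apply_apply, Equiv.symm_apply_apply]
  have h1 := MM_equi (K := K) π (t + BB π h) h (eR.symm i) (eC.symm j)
  rw [← h1]
  have h3 : t + BB π h + BB π h = t := by
    funext s
    rw [Pi.add_apply, Pi.add_apply, add_assoc, zmod2_add_self, add_zero]
  rw [h3]

/-- functions of low degree are orthogonal to the full character -/
theorem top_zero {S : Type} [Fintype S] [DecidableEq S] {τ : ℕ} (hτ : τ < Fintype.card S)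
    {F : (S → ZMod 2) → K} (hF : F ∈ Sp K {l : S → ZMod 2 | wt l ≤ τ}) :
    ∑ t : S → ZMod 2, ((chi t : ℤ) : K) * F t = 0 := by
  have hchi : ∀ t : S → ZMod 2, ((chi t : ℤ) : K) = ch K (fun _ => 1) t := by
    intro t
    rw [chi_eq_sg]
    unfold ch sK
    congr 2
    unfold dot
    exact Finset.sum_congr rfl fun s _ => (one_mul _).symm
  refine Submodule.span_induction
    (p := fun F _ => ∑ t : S → ZMod 2, ((chi t : ℤ) : K) * F t = 0) ?_ ?_ ?_ ?_ hF
  · rintro _ ⟨l, hl, rfl⟩
    let L : (S → ZMod 2) →+ ZMod 2 :=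
      { toFun := fun t => dot ((fun _ => 1) + l) t
        map_zero' := dot_zero _
        map_add' := fun t t' => dot_add _ _ _ }
    have h1 : ∀ t : S → ZMod 2, ((chi t : ℤ) : K) * ch K l t = sK K (L t) := by
      intro t
      rw [hchi]
      show sK K (dot (fun _ => 1) t) * sK K (dot l t) = sK K (dot ((fun _ => 1) + l) t)
      rw [add_dot, sK_add]
    rw [Finset.sum_congr rfl (fun t _ => h1 t), sum_sK, if_neg]
    intro hall
    have h3 : wt l = Fintype.card S := by
      unfold wt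
      rw [Finset.filter_true_of_mem, Finset.card_univ]
      intro j _
      have h4 : dot ((fun _ => 1) + l) (Pi.single j 1) = 0 := hall (Pi.single j 1)
      rw [dot_comm, dot_single] at h4
      have h5 : (1 : ZMod 2) = l j := zmod2_eq h4
      rw [← h5]
      decide
    have h6 : wt l ≤ τ := hl
    omega
  · rw [Finset.sum_eq_zero]
    intro t _
    rw [Pi.zero_apply, mul_zero]
  · intro F G _ _ h3 h4
    calc ∑ t : S → ZMod 2, ((chi t : ℤ) : K) * (F + G) t
        = ∑ t : S → ZMod 2, ((chi t : ℤ) : K) * F t +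
          ∑ t : S → ZMod 2, ((chi t : ℤ) : K) * G t := by
          rw [← Finset.sum_add_distrib]
          exact Finset.sum_congr rfl fun t _ => by rw [Pi.add_apply, mul_add]
      _ = 0 := by rw [h3, h4, add_zero]
  · intro c F _ h3
    calc ∑ t : S → ZMod 2, ((chi t : ℤ) : K) * (c • F) t
        = c * ∑ t : S → ZMod 2, ((chi t : ℤ) : K) * F t := by
          rw [Finset.mul_sum]
          exact Finset.sum_congr rfl fun t _ => by
            rw [Pi.smul_apply, smul_eq_mul]
            ring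
      _ = 0 := by rw [h3, mul_zero]

/-- the permanents of the family do not have low degree -/
theorem perm_not_low (h2 : (2 : K) ≠ 0) [Fintype Z] (π : Slot w ≃ Fin (3 * w) × Bool)
    (eR : Rw w Z ≃ Fin n) (eC : Cl w Z ≃ Fin n) {τ : ℕ} (hτ : τ < 6 * w) :
    (fun t => (xm K π eR eC t).permanent) ∉ Sp K {l : Slot w → ZMod 2 | wt l ≤ τ} := by
  intro hF
  have hcard : Fintype.card (Slot w) = 6 * w := by
    rw [Fintype.card_prod, Fintype.card_fin, Fintype.card_fin]
    ring
  have h1 := top_zero (by rw [hcard]; exact hτ) hF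
  have h3 : ∀ t : Slot w → ZMod 2, ((chi t : ℤ) : K) * (xm K π eR eC t).permanent =
      ((chi t * PP π t : ℤ) : K) := by
    intro t
    have h4 := permanent_eq (K := K) π eR eC t
    have h5 : (xm K π eR eC t).permanent = (PP π t : K) := h4
    rw [h5, Int.cast_mul]
  rw [Finset.sum_congr rfl (fun t _ => h3 t), ← Int.cast_sum, sum_PP] at h1
  have h6 : ((8 ^ (2 * w) * (-2) ^ (3 * w) : ℤ) : K) =
      (-1) ^ (3 * w) * ((2 : K) ^ (3 * (2 * w)) * 2 ^ (3 * w)) := by
    push_cast
    have h8 : (8 : K) = 2 ^ 3 := by norm_num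
    rw [h8, ← pow_mul]
    have h9 : (-2 : K) ^ (3 * w) = (-1) ^ (3 * w) * 2 ^ (3 * w) := by
      rw [← mul_pow]
      norm_num
    rw [h9]
    ring
  rw [h6] at h1
  have h7 : ((-1 : K)) ^ (3 * w) ≠ 0 := pow_ne_zero _ (neg_ne_zero.mpr one_ne_zero)
  exact (mul_ne_zero h7 (mul_ne_zero (pow_ne_zero _ h2) (pow_ne_zero _ h2))) h1

end Pool.Agent.TH658.Eq
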