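import Pool.Agent.TH658.Eq.Tuple

set_option autoImplicit false
set_option linter.unusedSectionVars false

/-! Nested gates: the bounds through the embeddings. -/

namespace Pool.Agent.TH658.Eq

open Finset Pool.Agent.H30R2.PS

variable {K : Type} [Field K] {n w : ℕ}

/-- each symmetry of the subgroup is given by a conjugation of the tuple -/
def LiftsEach {ι Y X G : Type} [Fintype ι] [DecidableEq ι] [AddGroup G] (act : G → X → X)
    (H : AddSubgroup G) (M : X → Y → Matrix ι ι K) : Prop :=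
  ∀ h ∈ H, ∃ q : (Matrix ι ι K)ˣ, ∀ x y, M (act h x) y = q.1 * M x y * q⁻¹.1

/-- the symmetries of the subgroup are given by conjugations by the matrices of a linear
representation of the subgroup -/
def LiftsLinearly {ι Y X G : Type} [Fintype ι] [DecidableEq ι] [AddGroup G] (act : G → X → X)
    (H : AddSubgroup G) (M : X → Y → Matrix ι ι K) : Prop :=
  ∃ ρ : H → (Matrix ι ι K)ˣ, (∀ h h', ρ (h + h') = ρ h * ρ h') ∧
    ∀ (h : H) x y, M (act h x) y = (ρ h).1 * M x y * (ρ h)⁻¹.1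

/-- the function depends only on the traces of the products of matrices of the tuple -/
def ByTraces {ι Y X : Type} [Fintype ι] [DecidableEq ι] (M : X → Y → Matrix ι ι K)
    (v : X → K) : Prop :=
  ∀ x x', (∀ ys : List Y, ((ys.map (M x)).prod).trace = ((ys.map (M x')).prod).trace) →
    v x = v x'

/-- the function depends only on the simultaneous similarity class of the tuple -/
def ByClass {ι Y X : Type} [Fintype ι] [DecidableEq ι] (M : X → Y → Matrix ι ι K)
    (v : X → K) : Prop :=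
  ∀ x x', (∃ q : (Matrix ι ι K)ˣ, ∀ y, M x' y = q.1 * M x y * q⁻¹.1) → v x = v x'

theorem nest (h2 : (2 : K) ≠ 0) (d : ℕ) (hn : 8 * w ≤ n) (hd : 6400 * d ≤ w)
    (ρ : Fin (2 * w) × Four ↪ Fin n) (κ : Fin (3 * w) × ZMod 2 ↪ Fin n) (s : ℕ)
    (N : Fin s → ℕ) (hN : ∀ j, 0 < N j) (Y : Fin s → Type)
    (M : ∀ j, Matrix (Fin n) (Fin n) K → Y j → Matrix (Fin (N j)) (Fin (N j)) K)
    (v : Fin s → Matrix (Fin n) (Fin n) K → K) (H : Fin s → AddSubgroup (Gp w))
    (hent : ∀ j y a b, (fun X => M j X y a b) ∈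
      Loc K n d ⊔ Submodule.span K (v '' {i | i < j}))
    (hgate : ∀ j, (LiftsEach (acte ρ κ) (H j) (M j) ∧ ByTraces (M j) (v j)) ∨
      (LiftsLinearly (acte ρ κ) (H j) (M j) ∧ ByClass (M j) (v j)))
    (hper : (fun X : Matrix (Fin n) (Fin n) K => X.permanent) ∈
      Loc K n d ⊔ Submodule.span K (Set.range v)) (hs : 0 < w) :
    2 ^ (w / 3200) ≤ 2 * ∑ j, N j ^ 4 * (H j).index := by
  classical
  obtain ⟨eR, eC, he⟩ := exists_labels hn ρ κ
  have hact : ∀ (h : Gp w) (X : Matrix (Fin n) (Fin n) K), actm eR eC h X = acte ρ κ h X := by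
    intro h X
    unfold actm
    rw [(he h).1, (he h).2]
    rfl
  have hact' : (actm eR eC : Gp w → Matrix (Fin n) (Fin n) K → Matrix (Fin n) (Fin n) K) =
      acte ρ κ := by
    funext h X
    exact hact h X
  let H' : Fin s → Submodule (ZMod 2) (Gp w) := fun j => AddSubgroup.toZModSubmodule 2 (H j)
  have hC : ∀ j, ∃ C : Finset (Chr (H' j)), C.Nonempty ∧ C.card ≤ N j ^ 2 ∧
      Inv (actm eR eC) (H' j) C {f | ∃ y i j', f = fun x => M j x y i j'} (v j) := by
    intro j
    have : Nonempty (Fin (N j)) := ⟨⟨0, hN j⟩⟩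
    rcases hgate j with ⟨h3, h4⟩ | ⟨⟨r, hr, h3⟩, h4⟩
    · rw [← hact'] at h3
      obtain ⟨C, hC1, hC2, hC3⟩ := inv_words h2 (actm eR eC) (actm_zero eR eC)
        (actm_add eR eC) (H' j) (M j) h3
      rw [Fintype.card_fin] at hC2
      exact ⟨C, hC1, hC2, hC3 (v j) h4⟩
    · rw [← hact'] at h3
      obtain ⟨C, hC1, hC2, hC3⟩ := inv_class h2 (actm eR eC) (H' j) (M j) r hr h3
      rw [Fintype.card_fin] at hC2
      refine ⟨C, hC1, hC2.trans ?_, hC3 (v j) h4⟩
      have h5 := hN j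
      nlinarith
  choose C hC1 hC2 hC3 using hC
  have hfin := engine (K := K) h2 hs eR eC H' C hC1
    (fun j => {f | ∃ y i j', f = fun x => M j x y i j'}) v hC3 d (w / 3200) (by omega)
    (Nat.mul_div_le w 3200) (by
      rintro j f ⟨y, a, b, rfl⟩
      exact hent j y a b) hper
  refine hfin.trans ?_
  rw [Finset.mul_sum]
  refine Finset.sum_le_sum fun j _ => ?_
  rw [perp_eq_index]
  have h5 : (H' j).toAddSubgroup.index = (H j).index := rfl
  rw [h5]
  calc 2 * (C j).card ^ 2 * (H j).index ≤ 2 * (N j ^ 2) ^ 2 * (H j).index :=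
        Nat.mul_le_mul_right _ (Nat.mul_le_mul_left _ (Nat.pow_le_pow_left (hC2 j) 2))
    _ = 2 * (N j ^ 4 * (H j).index) := by ring

end Pool.Agent.TH658.Eq
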