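import Pool.Agent.TH658.Eq.Low
import Pool.Agent.TH658.Eq.Alg
import Pool.Agent.TH658.Eq.Newt

set_option autoImplicit false
set_option linter.unusedSectionVars false

/-! Programs whose gates are invariants of equivariant matrices. -/

namespace Pool.Agent.TH658.Eq

open Finset Pool.Agent.H30R2.PS

variable {K : Type} [Field K] {w : ℕ} {X : Type}

/-- no critical sums for a set of characters -/
def GoodC (H : Submodule (ZMod 2) (Gp w)) (C : Finset (Chr H))
    (B : Gp w →ₗ[ZMod 2] (Slot w → ZMod 2)) (τ : ℕ) : Prop :=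
  ∀ z ∈ C, ∀ z' ∈ C, ∀ l : Slot w → ZMod 2, τ < wt l → wt l ≤ 2 * τ →
    ∃ h : H, dot l (B (h : Gp w)) ≠ z h + z' h

/-- The property of a gate used in the induction. -/
def Inv (act : Gp w → X → X) (H : Submodule (ZMod 2) (Gp w)) (C : Finset (Chr H))
    (E : Set (X → K)) (v : X → K) : Prop :=
  ∀ (B : Gp w →ₗ[ZMod 2] (Slot w → ZMod 2)) (x : (Slot w → ZMod 2) → X),
    (∀ t h, x (t + B h) = act h (x t)) → ∀ τ : ℕ,
    (∀ f ∈ E, (fun t => f (x t)) ∈ Sp K {l : Slot w → ZMod 2 | wt l ≤ τ}) →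
    GoodC H C B τ → ∀ e : Slot w → ZMod 2,
    (∀ l : Slot w → ZMod 2, wt l ≤ τ → (∀ h : H, dot l (B (h : Gp w)) = 0) → dot l e = 0) →
    ∀ t, v (x (t + e)) = v (x t)

/-- the values of a gate have low degree -/
theorem gate_low (h2 : (2 : K) ≠ 0) {act : Gp w → X → X} {H : Submodule (ZMod 2) (Gp w)}
    {C : Finset (Chr H)} (hC : C.Nonempty) {E : Set (X → K)} {v : X → K}
    (hv : Inv act H C E v) (B : Gp w →ₗ[ZMod 2] (Slot w → ZMod 2))
    (x : (Slot w → ZMod 2) → X) (hx : ∀ t h, x (t + B h) = act h (x t)) (τ : ℕ)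
    (hE : ∀ f ∈ E, (fun t => f (x t)) ∈ Sp K {l : Slot w → ZMod 2 | wt l ≤ τ})
    (hgood : GoodC H C B τ) :
    (fun t => v (x t)) ∈ Sp K {l : Slot w → ZMod 2 | wt l ≤ τ} := by
  classical
  obtain ⟨z, hz⟩ := hC
  let U : Submodule (ZMod 2) (Slot w → ZMod 2) :=
    { carrier := {l | wt l ≤ τ ∧ ∀ h : H, dot l (B (h : Gp w)) = 0}
      add_mem' := by
        rintro l l' ⟨h1, h3⟩ ⟨h1', h3'⟩
        have h4 : ∀ h : H, dot (l + l') (B (h : Gp w)) = 0 := fun h => by
          rw [add_dot, h3, h3', add_zero]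
        refine ⟨?_, h4⟩
        by_contra hn
        rw [not_le] at hn
        obtain ⟨h, hh⟩ := hgood z hz z hz _ hn ((wt_add_le l l').trans (by omega))
        exact hh ((h4 h).trans (zmod2_add_self _).symm)
      zero_mem' := ⟨by rw [wt_zero]; exact Nat.zero_le _, fun h => zero_dot _⟩
      smul_mem' := by
        rintro c l ⟨h1, h3⟩
        exact ⟨(wt_smul_le c l).trans h1, fun h => by rw [smul_dot, h3, mul_zero]⟩ }
  have h1 := mem_of_ann h2 (fun t => v (x t)) U (fun e he t =>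
    hv B x hx τ hE hgood e (fun l hl hadj => he l ⟨hl, hadj⟩) t)
  refine Sp_mono ?_ h1
  rintro l ⟨hl, _⟩
  exact hl

variable {n : ℕ} {Z : Type}

/-- The engine. -/
theorem engine (h2 : (2 : K) ≠ 0) [Fintype Z] (hw : 0 < w) (eR : Rw w Z ≃ Fin n)
    (eC : Cl w Z ≃ Fin n) {s : ℕ} (H : Fin s → Submodule (ZMod 2) (Gp w))
    (C : ∀ j, Finset (Chr (H j))) (hC : ∀ j, (C j).Nonempty)
    (E : Fin s → Set (Matrix (Fin n) (Fin n) K → K)) (v : Fin s → Matrix (Fin n) (Fin n) K → K)
    (hv : ∀ j, Inv (actm eR eC) (H j) (C j) (E j) (v j)) (d τ : ℕ)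
    (hd : 2 * d ≤ τ) (hτ : 3200 * τ ≤ w)
    (hE : ∀ j, ∀ f ∈ E j, f ∈ Loc K n d ⊔ Submodule.span K (v '' {i | i < j}))
    (hper : (fun X : Matrix (Fin n) (Fin n) K => X.permanent) ∈
      Loc K n d ⊔ Submodule.span K (Set.range v)) :
    2 ^ τ ≤ ∑ j, 2 * (C j).card ^ 2 * perp (H j) := by
  by_contra hcon
  rw [not_le] at hcon
  obtain ⟨π, hπ⟩ := exists_good H C τ hτ hcon
  set W := Sp K {l : Slot w → ZMod 2 | wt l ≤ τ} with hW
  let P : Submodule K (Matrix (Fin n) (Fin n) K → K) :=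
    { carrier := {f | (fun t => f (xm K π eR eC t)) ∈ W}
      add_mem' := fun {f g} hf hg => W.add_mem hf hg
      zero_mem' := W.zero_mem
      smul_mem' := fun c {f} hf => W.smul_mem c hf }
  have hloc : Loc K n d ≤ P := fun f hf =>
    Sp_mono (fun l (hl : wt l ≤ 2 * d) => hl.trans hd) (low h2 π eR eC f hf)
  have hall : ∀ j, v j ∈ P := by
    intro j
    induction j using WellFoundedLT.induction with
    | _ j ih =>
      refine gate_low h2 (hC j) (hv j) (BB π) (xm K π eR eC) (xm_equi π eR eC) τ ?_ (hπ j)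
      intro f hf
      have h3 : Loc K n d ⊔ Submodule.span K (v '' {i | i < j}) ≤ P := by
        refine sup_le hloc (Submodule.span_le.mpr ?_)
        rintro _ ⟨i, hi, rfl⟩
        exact ih i hi
      exact h3 (hE j f hf)
  have hfin : (fun X : Matrix (Fin n) (Fin n) K => X.permanent) ∈ P := by
    refine (sup_le hloc (Submodule.span_le.mpr ?_)) hper
    rintro _ ⟨j, rfl⟩
    exact hall j
  exact perm_not_low h2 π eR eC (τ := τ) (by omega) hfin

/-- Gates computing functions of the traces of the powers of a matrix, each symmetry of which is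
given by a conjugation. -/
theorem inv_traces (h2 : (2 : K) ≠ 0) {ι : Type} [Fintype ι] [DecidableEq ι] [Nonempty ι]
    (act : Gp w → X → X) (hact0 : ∀ x, act 0 x = x)
    (hact : ∀ h h' x, act (h + h') x = act h (act h' x)) (H : Submodule (ZMod 2) (Gp w))
    (M : X → Matrix ι ι K)
    (hsym : ∀ h ∈ H, ∃ q : (Matrix ι ι K)ˣ, ∀ x, M (act h x) = q.1 * M x * q⁻¹.1) :
    ∃ C : Finset (Chr H), C.Nonempty ∧ C.card ≤ Fintype.card ι ^ 2 ∧ ∀ v : X → K,
      (∀ x y, (∀ k : ℕ, (M x ^ k).trace = (M y ^ k).trace) → v x = v y) →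
      Inv act H C {f | ∃ i j, f = fun x => M x i j} v := by
  classical
  obtain ⟨R, hR0, hR, hRg, hR1, hRt⟩ := exists_action (H := H) M (fun h => act (h : Gp w)) hact0
    (fun h h' x => hact h h' x) (fun h => hsym h.1 h.2)
  refine ⟨univ.filter fun z => pr R z ≠ 0, ?_, ?_, ?_⟩
  · refine ⟨0, Finset.mem_filter.mpr ⟨mem_univ _, fun h0 => ?_⟩⟩
    have h1 : pr R 0 (1 : alg M) = 1 := by
      rw [pr_eig h2 (0 : Chr H) 0 (1 : alg M) (fun h => by
        rw [hR1, LinearMap.zero_apply, sK_zero, one_smul]), if_pos rfl]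
    rw [h0, LinearMap.zero_apply] at h1
    have h3 : (1 : Matrix ι ι K) = 0 := (congrArg Subtype.val h1).symm
    exact one_ne_zero h3
  · have h1 := card_le_finrank (R := R) h2 hR
    rw [Fintype.card_subtype] at h1
    refine le_trans (le_of_eq ?_) (h1.trans (finrank_alg M))
    congr 1
  · intro v hv B x hx τ hE hgood e he t
    refine hv _ _ fun k => ?_
    refine traces_eq (H := H) h2 M (fun h : H => act (h : Gp w)) R hR0 hR hRg hR1 hRt
      (B.comp H.subtype) x (fun t h => hx t h) τ (fun i j => hE _ ⟨i, j, rfl⟩) ?_ e he t k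
    intro z z' hz hz' l hl hl'
    exact hgood z (Finset.mem_filter.mpr ⟨mem_univ _, hz⟩) z'
      (Finset.mem_filter.mpr ⟨mem_univ _, hz'⟩) l hl hl'

/-- Gates computing functions of the similarity class of a matrix, the symmetries of which are
given by a linear representation. -/
theorem inv_similar (h2 : (2 : K) ≠ 0) {ι : Type} [Fintype ι] [DecidableEq ι] [Nonempty ι]
    (act : Gp w → X → X) (H : Submodule (ZMod 2) (Gp w)) (M : X → Matrix ι ι K)
    (ρ : H → (Matrix ι ι K)ˣ) (hρ : ∀ h h', ρ (h + h') = ρ h * ρ h')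
    (hsym : ∀ (h : H) x, M (act (h : Gp w) x) = (ρ h).1 * M x * (ρ h)⁻¹.1) :
    ∃ C : Finset (Chr H), C.Nonempty ∧ C.card ≤ Fintype.card ι ∧ ∀ v : X → K,
      (∀ x y, (∃ q : (Matrix ι ι K)ˣ, M y = q.1 * M x * q⁻¹.1) → v x = v y) →
      Inv act H C {f | ∃ i j, f = fun x => M x i j} v := by
  classical
  have hρ0 : ρ 0 = 1 := by
    have h1 := hρ 0 0
    rw [add_zero] at h1
    exact (mul_eq_left.mp h1.symm)
  have hself : ∀ h : H, h + h = 0 := by
    intro h
    have h3 : h + h = (2 : ZMod 2) • h := (two_smul (ZMod 2) h).symm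
    have h4 : (2 : ZMod 2) = 0 := rfl
    rw [h3, h4, zero_smul]
  have hinv : ∀ h : H, (ρ h)⁻¹ = ρ h := by
    intro h
    rw [inv_eq_iff_mul_eq_one, ← hρ, hself, hρ0]
  let R : H → (ι → K) →ₗ[K] (ι → K) := fun h => Matrix.toLin' (ρ h).1
  have hR : ∀ h h' v, R (h + h') v = R h (R h' v) := by
    intro h h' v
    show Matrix.toLin' (ρ (h + h')).1 v = Matrix.toLin' (ρ h).1 (Matrix.toLin' (ρ h').1 v)
    rw [hρ, Units.val_mul, Matrix.toLin'_mul]
    rfl
  have hR0 : ∀ v, R 0 v = v := by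
    intro v
    show Matrix.toLin' (ρ 0).1 v = v
    rw [hρ0, Units.val_one, Matrix.toLin'_one]
    rfl
  refine ⟨univ.filter fun z => pr R z ≠ 0, ?_, ?_, ?_⟩
  · by_contra hn
    rw [Finset.not_nonempty_iff_eq_empty, Finset.filter_eq_empty_iff] at hn
    have h1 := sum_pr h2 hR0 (fun _ => (1 : K))
    rw [Finset.sum_eq_zero (fun z _ => by
      rw [not_not.mp (hn (mem_univ z)), LinearMap.zero_apply])] at h1
    have h3 := congrFun h1 (Classical.arbitrary ι)
    exact zero_ne_one h3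
  · have h1 := card_le_finrank (R := R) h2 hR
    rw [Fintype.card_subtype, Module.finrank_fintype_fun_eq_card] at h1
    refine le_trans (le_of_eq ?_) h1
    congr 1
  · intro v hv B x hx τ hE hgood e he t
    obtain ⟨D, hD1, hD2, _, _⟩ := twist h2 hR0 hR (B.comp H.subtype)
      (fun t => Matrix.toLin' (M (x t))) (fun t h u => by
        show Matrix.toLin' (M (x (t + B (h : Gp w)))) u =
          Matrix.toLin' (ρ h).1 (Matrix.toLin' (M (x t)) (Matrix.toLin' (ρ h).1 u))
        rw [hx, hsym, hinv, Matrix.toLin'_mul, Matrix.toLin'_mul]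
        rfl) τ (fun μ u => by
        have h1 : (fun t => μ (Matrix.toLin' (M (x t)) u)) =
            fun t => ((μ.comp (LinearMap.applyₗ u)).comp
              (Matrix.toLin' (R := K) (m := ι) (n := ι)).toLinearMap) (M (x t)) := rfl
        rw [h1]
        exact functional_mem _ (fun t => M (x t)) (fun i j => hE _ ⟨i, j, rfl⟩) _)
      (fun z z' hz hz' l hl hl' => hgood z (Finset.mem_filter.mpr ⟨mem_univ _, hz⟩) z'
        (Finset.mem_filter.mpr ⟨mem_univ _, hz'⟩) l hl hl') e he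
    have hDD : LinearMap.toMatrix' D * LinearMap.toMatrix' D = 1 := by
      rw [← LinearMap.toMatrix'_comp]
      have h1 : D.comp D = LinearMap.id := LinearMap.ext hD1
      rw [h1, LinearMap.toMatrix'_id]
    let q : (Matrix ι ι K)ˣ := ⟨LinearMap.toMatrix' D, LinearMap.toMatrix' D, hDD, hDD⟩
    refine (hv _ _ ⟨q, ?_⟩).symm
    show M (x (t + e)) = LinearMap.toMatrix' D * M (x t) * LinearMap.toMatrix' D
    have h3 : D.comp (Matrix.toLin' (M (x t))) = (Matrix.toLin' (M (x (t + e)))).comp D :=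
      LinearMap.ext fun u => hD2 t u
    have h4 := congrArg LinearMap.toMatrix' h3
    rw [LinearMap.toMatrix'_comp, LinearMap.toMatrix'_comp, LinearMap.toMatrix'_toLin',
      LinearMap.toMatrix'_toLin'] at h4
    rw [h4, mul_assoc, hDD, mul_one]

end Pool.Agent.TH658.Eq
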