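import Pool.Agent.TH658.Eq.Det

set_option autoImplicit false
set_option linter.unusedSectionVars false

/-! Gates computing invariants of tuples of matrices. -/

namespace Pool.Agent.TH658.Eq

open Finset Pool.Agent.H30R2.PS

section rep

variable {K : Type} [Field K] {V : Type} [AddCommGroup V] [Module K V]
  {H : Type} [AddCommGroup H] [Module (ZMod 2) H] [Fintype H] {R : H → V →ₗ[K] V}
  {S : Type} [Fintype S] [DecidableEq S]

/-- The twist, the same for all the operator families. -/
theorem twist' (h2 : (2 : K) ≠ 0) (hR0 : ∀ v, R 0 v = v)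
    (hR : ∀ h h' v, R (h + h') v = R h (R h' v))
    (B : H →ₗ[ZMod 2] (S → ZMod 2)) (τ : ℕ)
    (good : ∀ z z' : Chr H, pr R z ≠ 0 → pr R z' ≠ 0 → ∀ l : S → ZMod 2, τ < wt l →
      wt l ≤ 2 * τ → ∃ h, dot l (B h) ≠ z h + z' h)
    (e : S → ZMod 2)
    (he : ∀ l : S → ZMod 2, wt l ≤ τ → (∀ h, dot l (B h) = 0) → dot l e = 0) :
    ∃ D : V →ₗ[K] V, (∀ v, D (D v) = v) ∧
      (∀ a : (S → ZMod 2) → V →ₗ[K] V, (∀ t h v, a (t + B h) v = R h (a t (R h v))) →
        (∀ (μ : Module.Dual K V) (v : V),
          (fun t => μ (a t v)) ∈ Sp K {l : S → ZMod 2 | wt l ≤ τ}) →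
        ∀ t v, D (a t v) = a (t + e) (D v)) ∧
      (∀ v, (∀ h, R h v = v) → D v = v) ∧
      (∀ φ : Module.Dual K V, (∀ h v, φ (R h v) = φ v) → ∀ v, φ (D v) = φ v) := by
  classical
  obtain ⟨E, hE0, hE⟩ := exists_E {z : Chr H | pr R z ≠ 0} B τ
    (fun z hz z' hz' => good z z' hz hz') e he
  let D : V →ₗ[K] V := ∑ z : Chr H, sK K (E z) • pr R z
  have hD : ∀ v, D v = ∑ z : Chr H, sK K (E z) • pr R z v := by
    intro v
    show (∑ z : Chr H, sK K (E z) • pr R z) v = _
    rw [LinearMap.sum_apply]
    rfl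
  have hDpr : ∀ z v, D (pr R z v) = sK K (E z) • pr R z v := by
    intro z v
    rw [hD, Finset.sum_eq_single z]
    · rw [pr_eig h2 z z _ (fun h => R_pr hR z h _), if_pos rfl]
    · intro z' _ hz'
      rw [pr_eig h2 z z' _ (fun h => R_pr hR z h _), if_neg hz', smul_zero]
    · intro h
      exact absurd (mem_univ _) h
  refine ⟨D, ?_, ?_, ?_, ?_⟩
  · intro v
    rw [hD v, map_sum]
    conv_rhs => rw [← sum_pr h2 hR0 v]
    refine Finset.sum_congr rfl fun z _ => ?_
    rw [map_smul, hDpr, smul_smul, sK_mul_self, one_smul]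
  · -- the key computation
    intro a ha hlow
    have key : ∀ z z' : Chr H, ∀ t v, pr R z (a (t + e) (pr R z' v)) =
        sK K (E z + E z') • pr R z (a t (pr R z' v)) := by
      intro z z' t v
      by_cases hz : pr R z = 0
      · rw [hz, LinearMap.zero_apply, LinearMap.zero_apply, smul_zero]
      by_cases hz' : pr R z' = 0
      · rw [hz', LinearMap.zero_apply, map_zero, map_zero, map_zero, map_zero, smul_zero]
      rw [← sub_eq_zero]
      rw [← Module.forall_dual_apply_eq_zero_iff K]
      intro μ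
      rw [map_sub, sub_eq_zero, map_smul, smul_eq_mul]
      have hlow' := hlow (μ.comp (pr R z)) (pr R z' v)
      have hpro := proj h2 hlow' B (z + z') (fun t h => by
        show μ (pr R z (a (t + B h) (pr R z' v))) =
          sK K (z h + z' h) * μ (pr R z (a t (pr R z' v)))
        rw [ha, R_pr hR z' h v, map_smul, map_smul, map_smul, map_smul]
        have hcomm : ∀ u, pr R z (R h u) = sK K (z h) • pr R z u := by
          intro u
          conv_lhs => rw [← sum_pr h2 hR0 u]
          conv_rhs => rw [← sum_pr h2 hR0 u]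
          rw [map_sum, map_sum, map_sum, Finset.smul_sum]
          refine Finset.sum_congr rfl fun y _ => ?_
          rw [R_pr hR y h u, map_smul, pr_eig h2 y z _ (fun h => R_pr hR y h _)]
          by_cases hy : z = y
          · rw [if_pos hy, hy]
          · rw [if_neg hy, smul_zero, smul_zero]
        rw [hcomm, map_smul, sK_add, smul_eq_mul, smul_eq_mul]
        ring)
      exact shift hpro e (E z + E z') (fun l hl => hE z hz z' hz' l hl.1 hl.2) t
    intro t v
    have h1 : ∀ z', D (a t (pr R z' v)) = a (t + e) (D (pr R z' v)) := by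
      intro z'
      rw [hDpr, map_smul, hD]
      conv_rhs => rw [← sum_pr h2 hR0 (a (t + e) (pr R z' v))]
      rw [Finset.smul_sum]
      refine Finset.sum_congr rfl fun z _ => ?_
      rw [key, smul_smul, ← sK_add]
      have : E z' + (E z + E z') = E z := by
        have : ∀ x y : ZMod 2, x + (y + x) = y := by decide
        exact this _ _
      rw [this]
    have h3 := sum_pr h2 hR0 v
    conv_lhs => rw [← h3]
    conv_rhs => rw [← h3]
    rw [map_sum, map_sum, map_sum, map_sum]
    exact Finset.sum_congr rfl fun z' _ => h1 z'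
  · intro v hv
    have h1 : ∀ z, pr R z v = if z = 0 then v else 0 := by
      intro z
      exact pr_eig h2 0 z v (fun h => by rw [LinearMap.zero_apply, sK_zero, one_smul]; exact hv h)
    rw [hD, Finset.sum_eq_single 0]
    · rw [h1, if_pos rfl, hE0, sK_zero, one_smul]
    · intro z _ hz
      rw [h1, if_neg hz, smul_zero]
    · intro h
      exact absurd (mem_univ _) h
  · intro φ hφ v
    have h1 : ∀ z : Chr H, z ≠ 0 → φ (pr R z v) = 0 := by
      intro z hz
      obtain ⟨h, hh⟩ : ∃ h, z h ≠ 0 := by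
        by_contra hn
        rw [not_exists] at hn
        exact hz (LinearMap.ext fun h => not_not.mp (hn h))
      have h4 := hφ h (pr R z v)
      rw [R_pr hR, map_smul] at h4
      have h5 : z h = 1 := by
        have : ∀ c : ZMod 2, c ≠ 0 → c = 1 := by decide
        exact this _ hh
      have h6 : sK K (1 : ZMod 2) = -1 := by
        unfold sK
        have : sg 1 = -1 := rfl
        rw [this, Int.cast_neg, Int.cast_one]
      rw [h5, h6, smul_eq_mul, neg_one_mul] at h4
      have h7 : (2 : K) * φ (pr R z v) = 0 := by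
        rw [two_mul]
        nth_rewrite 1 [← h4]
        exact neg_add_cancel _
      exact (mul_eq_zero.mp h7).resolve_left h2
    have h3 : φ (D v) = φ (∑ z : Chr H, pr R z v) := by
      rw [hD, map_sum, map_sum]
      refine Finset.sum_congr rfl fun z _ => ?_
      by_cases hz : z = 0
      · rw [hz, hE0, sK_zero, one_smul]
      · rw [map_smul, h1 z hz, smul_zero]
    rw [h3, sum_pr h2 hR0 v]

end rep

variable {K : Type} [Field K] {w : ℕ} {X : Type}

/-- Gates computing functions of the traces of the words in a tuple of matrices, each symmetry of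
which is given by a conjugation. -/
theorem inv_words (h2 : (2 : K) ≠ 0) {ι : Type} [Fintype ι] [DecidableEq ι] [Nonempty ι]
    {Y : Type} (act : Gp w → X → X) (hact0 : ∀ x, act 0 x = x)
    (hact : ∀ h h' x, act (h + h') x = act h (act h' x)) (H : Submodule (ZMod 2) (Gp w))
    (M : X → Y → Matrix ι ι K)
    (hsym : ∀ h ∈ H, ∃ q : (Matrix ι ι K)ˣ, ∀ x y, M (act h x) y = q.1 * M x y * q⁻¹.1) :
    ∃ C : Finset (Chr H), C.Nonempty ∧ C.card ≤ Fintype.card ι ^ 2 ∧ ∀ v : X → K,
      (∀ x x', (∀ ys : List Y, ((ys.map (M x)).prod).trace = ((ys.map (M x')).prod).trace) →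
        v x = v x') →
      Inv act H C {f | ∃ y i j, f = fun x => M x y i j} v := by
  classical
  let A : X × Y → Matrix ι ι K := fun p => M p.1 p.2
  obtain ⟨R, hR0, hR, hRg, hR1, hRt⟩ := exists_action (H := H) A
    (fun h p => (act (h : Gp w) p.1, p.2)) (fun p => Prod.ext (hact0 p.1) rfl)
    (fun h h' p => Prod.ext (hact h h' p.1) rfl) (fun h => by
      obtain ⟨q, hq⟩ := hsym h.1 h.2
      exact ⟨q, fun p => hq p.1 p.2⟩)
  refine ⟨univ.filter fun z => pr R z ≠ 0, ?_, ?_, ?_⟩
  · refine ⟨0, Finset.mem_filter.mpr ⟨mem_univ _, fun h0 => ?_⟩⟩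
    have h1 : pr R 0 (1 : alg A) = 1 := by
      rw [pr_eig h2 (0 : Chr H) 0 (1 : alg A) (fun h => by
        rw [hR1, LinearMap.zero_apply, sK_zero, one_smul]), if_pos rfl]
    rw [h0, LinearMap.zero_apply] at h1
    have h3 : (1 : Matrix ι ι K) = 0 := (congrArg Subtype.val h1).symm
    exact one_ne_zero h3
  · have h1 := card_le_finrank (R := R) h2 hR
    rw [Fintype.card_subtype] at h1
    refine le_trans (le_of_eq ?_) (h1.trans (finrank_alg A))
    congr 1
  · intro v hv B x hx τ hE hgood e he t
    have hself : ∀ (h : H) v, R h (R h v) = v := by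
      intro h v
      rw [← hR]
      have h1 : h + h = 0 := by
        have h3 : h + h = (2 : ZMod 2) • h := (two_smul (ZMod 2) h).symm
        have h4 : (2 : ZMod 2) = 0 := rfl
        rw [h3, h4, zero_smul]
      rw [h1, hR0]
    obtain ⟨D, _, hD2, hD3, hD4⟩ := twist' (S := Slot w) h2 hR0 hR (B.comp H.subtype) τ
      (fun z z' hz hz' l hl hl' => hgood z (Finset.mem_filter.mpr ⟨mem_univ _, hz⟩) z'
        (Finset.mem_filter.mpr ⟨mem_univ _, hz'⟩) l hl hl') e he
    have hstep : ∀ y (u : alg A), D (gen A (x t, y) * u) = gen A (x (t + e), y) * D u := by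
      intro y u
      refine hD2 (fun t => LinearMap.mulLeft K (gen A (x t, y))) ?_ ?_ t u
      · intro t h u
        show gen A (x (t + B (h : Gp w)), y) * u = R h (gen A (x t, y) * R h u)
        rw [hRg, hself, hx]
      · intro μ u
        exact functional_alg (Sp K {l : Slot w → ZMod 2 | wt l ≤ τ}) A (fun t => (x t, y))
          (fun i j => hE _ ⟨y, i, j, rfl⟩) μ u
    have hword : ∀ ys : List Y, D ((ys.map fun y => gen A (x t, y)).prod) =
        (ys.map fun y => gen A (x (t + e), y)).prod := by
      intro ys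
      induction ys with
      | nil => exact hD3 1 fun h => hR1 h
      | cons y ys ih => rw [List.map_cons, List.prod_cons, hstep, ih, List.map_cons,
          List.prod_cons]
    let φ : Module.Dual K (alg A) :=
      (Matrix.traceLinearMap ι K K).comp (Subalgebra.toSubmodule (alg A)).subtype
    have hφ : ∀ v : alg A, φ v = (v : Matrix ι ι K).trace := fun v => rfl
    have hval : ∀ t (ys : List Y), (((ys.map fun y => gen A (x t, y)).prod : alg A) :
        Matrix ι ι K) = (ys.map (M (x t))).prod := by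
      intro t ys
      induction ys with
      | nil => rfl
      | cons y ys ih =>
        rw [List.map_cons, List.prod_cons, List.map_cons, List.prod_cons, ← ih]
        rfl
    refine hv _ _ fun ys => ?_
    have h5 := hD4 φ (fun h v => by rw [hφ, hφ, hRt]) ((ys.map fun y => gen A (x t, y)).prod)
    rw [hword, hφ, hφ, hval, hval] at h5
    exact h5

/-- Gates computing functions of the simultaneous similarity class of a tuple of matrices, the
symmetries of which are given by a linear representation. -/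
theorem inv_class (h2 : (2 : K) ≠ 0) {ι : Type} [Fintype ι] [DecidableEq ι] [Nonempty ι]
    {Y : Type} (act : Gp w → X → X) (H : Submodule (ZMod 2) (Gp w)) (M : X → Y → Matrix ι ι K)
    (ρ : H → (Matrix ι ι K)ˣ) (hρ : ∀ h h', ρ (h + h') = ρ h * ρ h')
    (hsym : ∀ (h : H) x y, M (act (h : Gp w) x) y = (ρ h).1 * M x y * (ρ h)⁻¹.1) :
    ∃ C : Finset (Chr H), C.Nonempty ∧ C.card ≤ Fintype.card ι ∧ ∀ v : X → K,
      (∀ x x', (∃ q : (Matrix ι ι K)ˣ, ∀ y, M x' y = q.1 * M x y * q⁻¹.1) → v x = v x') →
      Inv act H C {f | ∃ y i j, f = fun x => M x y i j} v := by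
  classical
  have hρ0 : ρ 0 = 1 := by
    have h1 := hρ 0 0
    rw [add_zero] at h1
    exact (mul_eq_left.mp h1.symm)
  have hself : ∀ h : H, h + h = 0 := by
    intro h
    have h3 : h + h = (2 : ZMod 2) • h := (two_smul (ZMod 2) h).symm
    have h4 : (2 : ZMod 2) = 0 := rfl
    rw [h3, h4, zero_smul]
  have hinv : ∀ h : H, (ρ h)⁻¹ = ρ h := by
    intro h
    rw [inv_eq_iff_mul_eq_one, ← hρ, hself, hρ0]
  let R : H → (ι → K) →ₗ[K] (ι → K) := fun h => Matrix.toLin' (ρ h).1
  have hR : ∀ h h' v, R (h + h') v = R h (R h' v) := by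
    intro h h' v
    show Matrix.toLin' (ρ (h + h')).1 v = Matrix.toLin' (ρ h).1 (Matrix.toLin' (ρ h').1 v)
    rw [hρ, Units.val_mul, Matrix.toLin'_mul]
    rfl
  have hR0 : ∀ v, R 0 v = v := by
    intro v
    show Matrix.toLin' (ρ 0).1 v = v
    rw [hρ0, Units.val_one, Matrix.toLin'_one]
    rfl
  refine ⟨univ.filter fun z => pr R z ≠ 0, ?_, ?_, ?_⟩
  · by_contra hn
    rw [Finset.not_nonempty_iff_eq_empty, Finset.filter_eq_empty_iff] at hn
    have h1 := sum_pr h2 hR0 (fun _ => (1 : K))
    rw [Finset.sum_eq_zero (fun z _ => by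
      rw [not_not.mp (hn (mem_univ z)), LinearMap.zero_apply])] at h1
    have h3 := congrFun h1 (Classical.arbitrary ι)
    exact zero_ne_one h3
  · have h1 := card_le_finrank (R := R) h2 hR
    rw [Fintype.card_subtype, Module.finrank_fintype_fun_eq_card] at h1
    refine le_trans (le_of_eq ?_) h1
    congr 1
  · intro v hv B x hx τ hE hgood e he t
    obtain ⟨D, hD1, hD2, _, _⟩ := twist' (S := Slot w) h2 hR0 hR (B.comp H.subtype) τ
      (fun z z' hz hz' l hl hl' => hgood z (Finset.mem_filter.mpr ⟨mem_univ _, hz⟩) z'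
        (Finset.mem_filter.mpr ⟨mem_univ _, hz'⟩) l hl hl') e he
    have hDD : LinearMap.toMatrix' D * LinearMap.toMatrix' D = 1 := by
      rw [← LinearMap.toMatrix'_comp]
      have h1 : D.comp D = LinearMap.id := LinearMap.ext hD1
      rw [h1, LinearMap.toMatrix'_id]
    let q : (Matrix ι ι K)ˣ := ⟨LinearMap.toMatrix' D, LinearMap.toMatrix' D, hDD, hDD⟩
    refine (hv _ _ ⟨q, fun y => ?_⟩).symm
    show M (x (t + e)) y = LinearMap.toMatrix' D * M (x t) y * LinearMap.toMatrix' D
    have h3 : D.comp (Matrix.toLin' (M (x t) y)) = (Matrix.toLin' (M (x (t + e)) y)).comp D := by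
      refine LinearMap.ext fun u => ?_
      refine hD2 (fun t => Matrix.toLin' (M (x t) y)) ?_ ?_ t u
      · intro t h u
        show Matrix.toLin' (M (x (t + B (h : Gp w))) y) u =
          Matrix.toLin' (ρ h).1 (Matrix.toLin' (M (x t) y) (Matrix.toLin' (ρ h).1 u))
        rw [hx, hsym, hinv, Matrix.toLin'_mul, Matrix.toLin'_mul]
        rfl
      · intro μ u
        have h1 : (fun t => μ (Matrix.toLin' (M (x t) y) u)) =
            fun t => ((μ.comp (LinearMap.applyₗ u)).comp
              (Matrix.toLin' (R := K) (m := ι) (n := ι)).toLinearMap) (M (x t) y) := rfl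
        rw [h1]
        exact functional_mem _ (fun t => M (x t) y) (fun i j => hE _ ⟨y, i, j, rfl⟩) _
    have h4 := congrArg LinearMap.toMatrix' h3
    rw [LinearMap.toMatrix'_comp, LinearMap.toMatrix'_comp, LinearMap.toMatrix'_toLin',
      LinearMap.toMatrix'_toLin'] at h4
    rw [h4, mul_assoc, hDD, mul_one]

end Pool.Agent.TH658.Eq
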